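import Mathlib

/-!
Alternating Hamiltonian cycles in 2-edge-coloured complete multipartite graphs: basic tools.
A perfect matching is a function `f` with `G.Adj v (f v)` and `f (f v) = v`.
-/

namespace Pool.Agent.H35.AHC

variable {V : Type*}

/-- `f` is a perfect matching of `G`, given as an involution along edges. -/
structure IsPM (G : SimpleGraph V) (f : V → V) : Prop where
  adj : ∀ v, G.Adj v (f v)
  inv : ∀ v, f (f v) = v

theorem IsPM.ne {G : SimpleGraph V} {f : V → V} (h : IsPM G f) (v : V) : f v ≠ v :=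
  (h.adj v).ne'

theorem IsPM.inj {G : SimpleGraph V} {f : V → V} (h : IsPM G f) {u v : V} (e : f u = f v) :
    u = v := by
  rw [← h.inv u, e, h.inv]

theorem IsPM.eq_iff {G : SimpleGraph V} {f : V → V} (h : IsPM G f) {u v : V} :
    f u = v ↔ u = f v :=
  ⟨fun e => by rw [← e, h.inv], fun e => by rw [e, h.inv]⟩

/-- Connectivity in the union of two matchings. -/
def Conn (r b : V → V) (u v : V) : Prop :=
  Relation.EqvGen (fun u v => v = r u ∨ v = b u) u v

namespace Conn

variable {r b r' b' : V → V} {u v w : V}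

theorem refl (u : V) : Conn r b u u := Relation.EqvGen.refl _

theorem symm (h : Conn r b u v) : Conn r b v u := Relation.EqvGen.symm _ _ h

theorem trans (h : Conn r b u v) (h' : Conn r b v w) : Conn r b u w :=
  Relation.EqvGen.trans _ _ _ h h'

theorem rstep (u : V) : Conn r b u (r u) := Relation.EqvGen.rel _ _ (Or.inl rfl)

theorem bstep (u : V) : Conn r b u (b u) := Relation.EqvGen.rel _ _ (Or.inr rfl)

theorem lift (h1 : ∀ u, Conn r' b' u (r u)) (h2 : ∀ u, Conn r' b' u (b u))
    (h : Conn r b u v) : Conn r' b' u v := by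
  induction h with
  | rel x y hxy =>
    rcases hxy with rfl | rfl
    · exact h1 x
    · exact h2 x
  | refl x => exact refl x
  | symm x y _ ih => exact ih.symm
  | trans x y z _ _ ih1 ih2 => exact ih1.trans ih2

theorem swap (h : Conn r b u v) : Conn b r u v :=
  lift (fun u => bstep u) (fun u => rstep u) h

theorem mem_iff {S : V → Prop} (h1 : ∀ u, S u ↔ S (r u)) (h2 : ∀ u, S u ↔ S (b u))
    (h : Conn r b u v) : S u ↔ S v := by
  induction h with
  | rel x y hxy =>
    rcases hxy with rfl | rfl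
    · exact h1 x
    · exact h2 x
  | refl x => exact Iff.rfl
  | symm x y _ ih => exact ih.symm
  | trans x y z _ _ ih1 ih2 => exact ih1.trans ih2

end Conn

/-- Outside `T` nothing changes and inside `T` the old partners stay connected. -/
theorem le_of_exchange {r b b' : V → V} (h : ∀ x, b' x ≠ b x → Conn r b' x (b x)) {u v : V}
    (huv : Conn r b u v) : Conn r b' u v := by
  refine Conn.lift (fun u => Conn.rstep u) (fun u => ?_) huv
  by_cases hu : b' u = b u
  · rw [← hu]; exact Conn.bstep u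
  · exact h u hu

/-- Walking alternately never closes up with the wrong parity. -/
theorem iter_ne {R B : SimpleGraph V} {r b : V → V} (hr : IsPM R r) (hb : IsPM B b) (i : ℕ) :
    ∀ x : V, (fun z => b (r z))^[i] x ≠ r x := by
  induction i using Nat.strong_induction_on with
  | _ i ih =>
    intro x hx
    match i, ih, hx with
    | 0, _, hx => exact hr.ne x hx.symm
    | 1, _, hx => exact hb.ne (r x) hx
    | (j + 2), ih, hx =>
      have h1 : (fun z => b (r z))^[j + 2] x = b (r ((fun z => b (r z))^[j] (b (r x)))) := by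
        rw [show j + 2 = (j + 1) + 1 from rfl, Function.iterate_succ_apply',
          Function.iterate_succ_apply]
      rw [h1] at hx
      have h2 : r ((fun z => b (r z))^[j] (b (r x))) = b (r x) := by
        rw [← hb.inv (r ((fun z => b (r z))^[j] (b (r x)))), hx]
      have h3 : (fun z => b (r z))^[j] (b (r x)) = r (b (r x)) := by
        rw [← hr.inv ((fun z => b (r z))^[j] (b (r x))), h2]
      exact ih j (by omega) (b (r x)) h3

theorem iter_conn (r b : V → V) (i : ℕ) (x : V) : Conn r b x ((fun z => b (r z))^[i] x) := by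
  induction i with
  | zero => exact Conn.refl x
  | succ i ih =>
    rw [Function.iterate_succ_apply']
    exact ih.trans ((Conn.rstep _).trans (Conn.bstep _))

theorem iter_inj {R B : SimpleGraph V} {r b : V → V} (hr : IsPM R r) (hb : IsPM B b) :
    Function.Injective (fun z => b (r z)) := fun _ _ h => hr.inj (hb.inj h)

/-- If `b'` agrees with `b` on the component of `x` except at `x` and `b x`, then `x` and `b x`
stay connected. -/
theorem L0 [Finite V] {R B : SimpleGraph V} {r b b' : V → V} (hr : IsPM R r) (hb : IsPM B b)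
    (x : V) (h : ∀ v, Conn r b x v → v ≠ x → v ≠ b x → b' v = b v) : Conn r b' x (b x) := by
  classical
  set t : V → V := fun z => b (r z) with ht
  have hinj : Function.Injective t := iter_inj hr hb
  have hper : x ∈ Function.periodicPts t := hinj.mem_periodicPts x
  obtain ⟨p, hp, hpx⟩ := hper
  have hex : ∃ p, 0 < p ∧ t^[p] x = x := ⟨p, hp, hpx⟩
  set q := Nat.find hex with hq
  obtain ⟨hq0, hqx⟩ := Nat.find_spec hex
  have hmin : ∀ i, 0 < i → i < q → t^[i] x ≠ x := fun i h0 hi he =>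
    Nat.find_min hex hi ⟨h0, he⟩
  have key : ∀ i, i < q → Conn r b' x (r (t^[i] x)) := by
    intro i
    induction i with
    | zero => intro _; exact Conn.rstep x
    | succ i ih =>
      intro hi
      have h1 := ih (by omega)
      have h2 : t^[i + 1] x = b (r (t^[i] x)) := Function.iterate_succ_apply' t i x
      have h3 : b' (r (t^[i] x)) = b (r (t^[i] x)) := by
        apply h
        · exact (iter_conn r b i x).trans (Conn.rstep _)
        · intro he
          apply iter_ne hr hb i x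
          rw [← hr.inv ((fun z => b (r z))^[i] x)]
          exact congrArg r he
        · intro he
          apply hmin (i + 1) (by omega) hi
          rw [h2, he, hb.inv]
      have h4 : Conn r b' x (t^[i + 1] x) := by
        rw [h2, ← h3]; exact h1.trans (Conn.bstep _)
      exact h4.trans (Conn.rstep _)
  have hlast := key (q - 1) (by omega)
  have h5 : r (t^[q - 1] x) = b x := by
    have h6 : t^[q - 1 + 1] x = b (r (t^[q - 1] x)) := Function.iterate_succ_apply' t (q - 1) x
    rw [show q - 1 + 1 = q by omega, hqx] at h6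
    have h7 := congrArg b h6
    rw [hb.inv] at h7
    exact h7.symm
  rw [← h5]; exact hlast

section exchange

open Classical in
/-- The 2-exchange. -/
theorem ex2 {b : V → V} (hinv : ∀ x, b (b x) = x) (hne : ∀ x, b x ≠ x) {u v : V}
    (h1 : v ≠ u) (h2 : v ≠ b u) :
    ∃ b' : V → V, (∀ x, b' (b' x) = x) ∧ (∀ x, b' x ≠ x) ∧ b' u = v ∧ b' v = u ∧
      b' (b u) = b v ∧ b' (b v) = b u ∧
      ∀ x, x ≠ u → x ≠ v → x ≠ b u → x ≠ b v → b' x = b x := by
  have h3 : b v ≠ u := fun h => h2 (by rw [← h, hinv])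
  have h4 : b v ≠ b u := fun h => h1 (by rw [← hinv v, h, hinv])
  refine ⟨fun x => if x = u then v else if x = v then u else if x = b u then b v else
    if x = b v then b u else b x, ?_, ?_, ?_, ?_, ?_, ?_, ?_⟩
  · intro x
    by_cases e1 : x = u
    · subst e1; simp [h1]
    by_cases e2 : x = v
    · subst e2; simp [h1]
    by_cases e3 : x = b u
    · subst e3; simp [hne, h2.symm, h3, h4]
    by_cases e4 : x = b v
    · subst e4; simp [hne, h3, h4, h2.symm]
    · have e5 : b x ≠ u := fun h => e3 (by rw [← h, hinv])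
      have e6 : b x ≠ v := fun h => e4 (by rw [← h, hinv])
      have e7 : b x ≠ b u := fun h => e1 (by rw [← hinv x, h, hinv])
      have e8 : b x ≠ b v := fun h => e2 (by rw [← hinv x, h, hinv])
      simp [e1, e2, e3, e4, e5, e6, e7, e8, hinv]
  · intro x
    by_cases e1 : x = u
    · subst e1; simp [h1]
    by_cases e2 : x = v
    · subst e2; simp [h1, h1.symm]
    by_cases e3 : x = b u
    · subst e3; simp [hne, h2.symm, h4]
    by_cases e4 : x = b v
    · subst e4; simp [hne, h3, h4, h4.symm]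
    · simp [e1, e2, e3, e4, hne]
  · simp
  · simp [h1]
  · simp [hne, h2.symm]
  · simp [hne, h3, h4]
  · intro x e1 e2 e3 e4
    simp [e1, e2, e3, e4]

/-- The 3-exchange: pairs `a, c, d` give new edges `a c`, `(b a) d`, `(b c) (b d)`. -/
theorem ex3 {b : V → V} (hinv : ∀ x, b (b x) = x) (hne : ∀ x, b x ≠ x) {a c d : V}
    (h1 : c ≠ a) (h2 : c ≠ b a) (h3 : d ≠ a) (h4 : d ≠ b a) (h5 : d ≠ c) (h6 : d ≠ b c) :
    ∃ b' : V → V, (∀ x, b' (b' x) = x) ∧ (∀ x, b' x ≠ x) ∧ b' a = c ∧ b' c = a ∧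
      b' (b a) = d ∧ b' d = b a ∧ b' (b c) = b d ∧ b' (b d) = b c ∧
      ∀ x, x ≠ a → x ≠ b a → x ≠ c → x ≠ b c → x ≠ d → x ≠ b d → b' x = b x := by
  obtain ⟨b1, i1, n1, e1, e2, e3, e4, e5⟩ := ex2 hinv hne h1 h2
  have k1 : b d ≠ a := fun h => h4 (by rw [← h, hinv])
  have k2 : b d ≠ b a := fun h => h3 (by rw [← hinv d, h, hinv])
  have k3 : b d ≠ c := fun h => h6 (by rw [← h, hinv])
  have k4 : b d ≠ b c := fun h => h5 (by rw [← hinv d, h, hinv])
  have k5 : b1 d = b d := e5 d h3 h5 h4 h6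
  obtain ⟨b2, i2, n2, f1, f2, f3, f4, f5⟩ := ex2 i1 n1 (u := b a) (v := d) h4
    (by rw [e3]; exact h6)
  rw [e3, k5] at f3
  rw [e3, k5] at f4
  refine ⟨b2, i2, n2, ?_, ?_, f1, f2, f3, f4, ?_⟩
  · rw [f5 a (fun h => hne a h.symm) h3.symm (by rw [e3]; exact fun h => h2 (by rw [h, hinv]))
      (by rw [k5]; exact k1.symm), e1]
  · rw [f5 c h2 h5.symm (by rw [e3]; exact fun h => hne c h.symm) (by rw [k5]; exact k3.symm), e2]
  · intro x g1 g2 g3 g4 g5 g6
    rw [f5 x g2 g5 (by rw [e3]; exact g4) (by rw [k5]; exact g6), e5 x g1 g3 g2 g4]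

/-- The 4-exchange: pairs `a, c, d, e` give new edges `a c`, `(b a) d`, `(b c) e`,
`(b e) (b d)`. -/
theorem ex4 {b : V → V} (hinv : ∀ x, b (b x) = x) (hne : ∀ x, b x ≠ x) {a c d e : V}
    (h1 : c ≠ a) (h2 : c ≠ b a) (h3 : d ≠ a) (h4 : d ≠ b a) (h5 : d ≠ c) (h6 : d ≠ b c)
    (h7 : e ≠ a) (h8 : e ≠ b a) (h9 : e ≠ c) (h10 : e ≠ b c) (h11 : e ≠ d) (h12 : e ≠ b d) :
    ∃ b' : V → V, (∀ x, b' (b' x) = x) ∧ (∀ x, b' x ≠ x) ∧ b' a = c ∧ b' c = a ∧
      b' (b a) = d ∧ b' d = b a ∧ b' (b c) = e ∧ b' e = b c ∧ b' (b d) = b e ∧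
      b' (b e) = b d ∧
      ∀ x, x ≠ a → x ≠ b a → x ≠ c → x ≠ b c → x ≠ d → x ≠ b d → x ≠ e → x ≠ b e →
        b' x = b x := by
  obtain ⟨b1, i1, n1, e1, e2, e3, e4, e5, e6, e7⟩ := ex3 hinv hne h1 h2 h3 h4 h5 h6
  have inj : ∀ {x y : V}, b x = b y → x = y := fun {x y} h => by rw [← hinv x, h, hinv]
  have k1 : b1 e = b e := e7 e h7 h8 h9 h10 h11 h12
  obtain ⟨b2, i2, n2, f1, f2, f3, f4, f5⟩ := ex2 i1 n1 (u := b c) (v := e) h10
    (by rw [e5]; exact h12)
  rw [e5, k1] at f3
  rw [e5, k1] at f4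
  have m1 : ∀ {x y : V}, x ≠ b y → b x ≠ y := fun {x y} h h' => h (by rw [← h', hinv])
  refine ⟨b2, i2, n2, ?_, ?_, ?_, ?_, f1, f2, f3, f4, ?_⟩
  · rw [f5 a (fun h => m1 h2 (h ▸ rfl)) h7.symm (by rw [e5]; exact (m1 h4).symm)
      (by rw [k1]; exact (m1 h8).symm), e1]
  · rw [f5 c (fun h => hne c h.symm) h9.symm (by rw [e5]; exact (m1 h6).symm)
      (by rw [k1]; exact (m1 h10).symm), e2]
  · rw [f5 (b a) (fun h => h1 (inj h).symm) h8.symm (by rw [e5]; exact fun h => h3 (inj h).symm)
      (by rw [k1]; exact fun h => h7 (inj h).symm), e3]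
  · rw [f5 d h6 h11.symm (by rw [e5]; exact fun h => hne d h.symm)
      (by rw [k1]; exact (m1 h12).symm), e4]
  · intro x g1 g2 g3 g4 g5 g6 g7 g8
    rw [f5 x g4 g7 (by rw [e5]; exact g6) (by rw [k1]; exact g8), e7 x g1 g2 g3 g4 g5 g6]

end exchange

end Pool.Agent.H35.AHC
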