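import Pool.Agent.H35.AHC.Cycle

namespace Pool.Agent.H35.AHC

variable {V : Type*} {R B : SimpleGraph V}

/-- An alternating Hamiltonian cycle gives a pair of perfect matchings without nontrivial closed
sets. -/
theorem HasAHC.exists_closed (h : HasAHC R B) : ∃ r b : V → V, IsPM R r ∧ IsPM B b ∧
    ∀ S : V → Prop, (∀ v, S v → S (r v)) → (∀ v, S v → S (b v)) → ∀ u v, S u → S v := by
  classical
  obtain ⟨m, hm, f, hf⟩ := h
  have par : ∀ i : ZMod (2 * m), Even (i - 1).val ↔ Odd i.val := by
    intro i
    have := val_parity hm (i - 1)
    rw [sub_add_cancel] at this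
    rw [← Nat.not_even_iff_odd, this, Nat.not_odd_iff_even]
  have par' : ∀ i : ZMod (2 * m), Odd (i - 1).val ↔ Even i.val := by
    intro i
    rw [← Nat.not_even_iff_odd, par, Nat.not_odd_iff_even]
  refine ⟨fun v => if Even (f.symm v).val then f (f.symm v + 1) else f (f.symm v - 1),
    fun v => if Even (f.symm v).val then f (f.symm v - 1) else f (f.symm v + 1),
    ⟨?_, ?_⟩, ⟨?_, ?_⟩, ?_⟩
  · intro v
    by_cases hv : Even (f.symm v).val
    · simp only [hv, if_true]
      have := (hf (f.symm v)).1 hv
      simpa using this
    · simp only [hv, if_false]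
      have h1 := (hf (f.symm v - 1)).1 ((par _).2 (Nat.not_even_iff_odd.1 hv))
      simp only [sub_add_cancel, Equiv.apply_symm_apply] at h1
      exact h1.symm
  · intro v
    by_cases hv : Even (f.symm v).val
    · have h1 : ¬ Even (f.symm v + 1).val := by
        rw [val_parity hm, Nat.not_odd_iff_even]; exact hv
      simp [hv, h1]
    · have h1 : Even (f.symm v - 1).val := (par _).2 (Nat.not_even_iff_odd.1 hv)
      simp [hv, h1]
  · intro v
    by_cases hv : Even (f.symm v).val
    · simp only [hv, if_true]
      have h1 := (hf (f.symm v - 1)).2 ((par' _).2 hv)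
      simp only [sub_add_cancel, Equiv.apply_symm_apply] at h1
      exact h1.symm
    · simp only [hv, if_false]
      have := (hf (f.symm v)).2 (Nat.not_even_iff_odd.1 hv)
      simpa using this
  · intro v
    by_cases hv : Even (f.symm v).val
    · have h1 : ¬ Even (f.symm v - 1).val := by
        rw [Nat.not_even_iff_odd, par']; exact hv
      simp [hv, h1]
    · have h1 : Even (f.symm v + 1).val := by
        rw [val_parity hm]; exact Nat.not_even_iff_odd.1 hv
      simp [hv, h1]
  · intro S h1 h2
    have : NeZero (2 * m) := ⟨by omega⟩
    have step : ∀ i, S (f i) → S (f (i + 1)) := by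
      intro i hi
      by_cases hv : Even i.val
      · have := h1 _ hi
        simpa [hv] using this
      · have := h2 _ hi
        simpa [hv] using this
    have steps : ∀ (j : ℕ) (i : ZMod (2 * m)), S (f i) → S (f (i + j)) := by
      intro j
      induction j with
      | zero => intro i hi; simpa using hi
      | succ j ih =>
        intro i hi
        have := step _ (ih i hi)
        rw [Nat.cast_succ, ← add_assoc]; exact this
    intro u v hu
    have h3 := steps (f.symm v - f.symm u).val (f.symm u) (by simpa using hu)
    rw [ZMod.natCast_zmod_val] at h3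
    simpa using h3

end Pool.Agent.H35.AHC
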