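import Pool.Agent.H35.AHC.LemmaA

namespace Pool.Agent.H35.AHC

variable {V : Type*}

/-- A factor whose connectivity relation is maximal. -/
structure MaxF (R B : SimpleGraph V) (r b : V → V) : Prop where
  pr : IsPM R r
  pb : IsPM B b
  max : ∀ r' b', IsPM R r' → IsPM B b' → (∀ x y, Conn r b x y → Conn r' b' x y) →
    ∀ x y, Conn r' b' x y → Conn r b x y

variable {R B : SimpleGraph V} {r b : V → V}

theorem MaxF.swap (h : MaxF R B r b) : MaxF B R b r :=
  ⟨h.pb, h.pr, fun b' r' hb' hr' hle x y hxy =>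
    (h.max r' b' hr' hb' (fun x y hxy => (hle x y hxy.swap).swap) x y hxy.swap).swap⟩

theorem MaxF.conn (h : MaxF R B r b) {u v : V} (hm : Merge B r b u v) : Conn r b u v := by
  obtain ⟨b', hb', hle, huv⟩ := hm
  exact h.max r b' h.pr hb' hle _ _ huv

theorem exists_maxF [Finite V] (hr : IsPM R r) (hb : IsPM B b) :
    ∃ r' b', MaxF R B r' b' := by
  classical
  let S : Set ((V → V) × (V → V)) := {p | IsPM R p.1 ∧ IsPM B p.2}
  have hS : S.Nonempty := ⟨(r, b), hr, hb⟩
  obtain ⟨p, hp, hmax⟩ := Set.exists_max_image S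
    (fun p => ({q : V × V | Conn p.1 p.2 q.1 q.2} : Set (V × V)).ncard) S.toFinite hS
  refine ⟨p.1, p.2, hp.1, hp.2, fun r' b' hr' hb' hle x y hxy => ?_⟩
  have h1 := hmax (r', b') ⟨hr', hb'⟩
  have h2 : ({q : V × V | Conn p.1 p.2 q.1 q.2} : Set (V × V)) ⊆
      {q : V × V | Conn r' b' q.1 q.2} := fun q hq => hle _ _ hq
  have h3 := Set.eq_of_subset_of_ncard_le h2 h1 (Set.toFinite _)
  have h4 : (x, y) ∈ ({q : V × V | Conn r' b' q.1 q.2} : Set (V × V)) := hxy
  rw [← h3] at h4
  exact h4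

variable [Finite V]

theorem MaxF.no2 (h : MaxF R B r b) {u v : V} (hc : ¬ Conn r b u v) (g : B.Adj u v) :
    ¬ B.Adj (b u) (b v) := fun g2 => hc (h.conn (merge2 h.pr h.pb g g2))

theorem MaxF.no2r (h : MaxF R B r b) {u v : V} (hc : ¬ Conn r b u v) (g : R.Adj u v) :
    ¬ R.Adj (r u) (r v) := h.swap.no2 (fun h' => hc h'.swap) g

/-- In a maximal factor all vertices whose blue edge leaves their red component lie in the same
component. -/
theorem outer (hcm : CM R B) (h : MaxF R B r b) {u v : V} (hu : ¬ R.Reachable u (b u))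
    (hv : ¬ R.Reachable v (b v)) : Conn r b u v := by
  have cut : ∀ a, RedCut R (fun w => R.Reachable a w) := fun a x y hx hy hxy =>
    hy (hx.trans hxy.reachable)
  have hb := h.pb
  by_cases k1 : R.Reachable u v
  · refine h.conn (lemmaA hcm h.pr h.pb (cut u) (SimpleGraph.Reachable.refl u) hu k1 ?_)
    exact fun h' => hv (k1.symm.trans h')
  by_cases k2 : R.Reachable u (b v)
  · have := h.conn (lemmaA hcm h.pr h.pb (cut u) (e := u) (f := b v)
      (SimpleGraph.Reachable.refl u) hu k2 (by rw [hb.inv]; exact k1))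
    exact this.trans (Conn.bstep v).symm
  by_cases k3 : R.Reachable (b u) v
  · have := h.conn (lemmaA hcm h.pr h.pb (cut (b u)) (e := b u) (f := v)
      (SimpleGraph.Reachable.refl _) (by rw [hb.inv]; exact fun h' => hu h'.symm) k3
      (fun h' => hv (k3.symm.trans h')))
    exact (Conn.bstep u).trans this
  by_cases k4 : R.Reachable (b u) (b v)
  · have := h.conn (lemmaA hcm h.pr h.pb (cut (b u)) (e := b u) (f := b v)
      (SimpleGraph.Reachable.refl _) (by rw [hb.inv]; exact fun h' => hu h'.symm) k4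
      (by rw [hb.inv]; exact k3))
    exact ((Conn.bstep u).trans this).trans (Conn.bstep v).symm
  exact h.conn (F1 hcm h.pr h.pb (fun g => k1 g.reachable) (fun g => k2 g.reachable)
    (fun g => k3 g.reachable) (fun g => k4 g.reachable))

/-- After an exchange with at most two crossing classes, everything touched was already
connected. -/
theorem finish {X : V → Prop} {b' : V → V} (hcm : CM R B) (h : MaxF R B r b) (hX : RedCut R X)
    (hb' : IsPM B b') {e f : V} (he : X e) (hbe : ¬ X (b' e)) (hf : X f) (hbf : ¬ X (b' f))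
    (hT : ∀ z, b' z ≠ b z → Conn r b' z e ∨ Conn r b' z f) {z1 z2 : V}
    (h1 : Conn r b' z1 e ∨ Conn r b' z1 f) (h2 : Conn r b' z2 e ∨ Conn r b' z2 f) :
    Conn r b z1 z2 := by
  obtain ⟨b'', hb'', hle, hef⟩ := lemmaA hcm h.pr hb' hX he hbe hf hbf
  have key : ∀ z, (Conn r b' z e ∨ Conn r b' z f) → Conn r b'' z e := by
    intro z hz
    rcases hz with hz | hz
    · exact hle _ _ hz
    · exact (hle _ _ hz).trans hef.symm
  refine h.max r b'' h.pr hb'' ?_ _ _ ((key _ h1).trans (key _ h2).symm)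
  intro x y hxy
  refine Conn.lift (fun u => Conn.rstep u) (fun u => ?_) hxy
  by_cases hu : b' u = b u
  · rw [← hu]; exact hle _ _ (Conn.bstep u)
  · have h3 : b' (b u) ≠ b (b u) := by
      rw [h.pb.inv]
      intro h4
      apply hu
      rw [← h4, hb'.inv, h4]
    exact (key _ (hT u hu)).trans (key _ (hT (b u) h3)).symm

section core

variable {X : V → Prop} {c : V}

/-- The standing situation: a component of a maximal factor (that of `c`) inside `X`. -/
structure Sit (R B : SimpleGraph V) (r b : V → V) (X : V → Prop) (c : V) : Prop where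
  hcm : CM R B
  hM : MaxF R B r b
  hX : RedCut R X
  hC : ∀ u, Conn r b c u → X u

omit [Finite V] in
theorem Sit.nc (S : Sit R B r b X c) {x u : V} (hbx : ¬ X (b x)) (hu : Conn r b c u) :
    ¬ Conn r b x u := fun h =>
  hbx (S.hC _ ((hu.trans h.symm).trans (Conn.bstep x)))

theorem Sit.fact_a (S : Sit R B r b X c) {x u : V} (hbx : ¬ X (b x))
    (hu : Conn r b c u) (g : B.Adj x u) : Sim R B (b x) (b u) :=
  ⟨fun h => S.hX _ _ (S.hC _ (hu.trans (Conn.bstep u))) hbx h.symm,
    S.hM.no2 (S.nc hbx hu) g⟩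

/-- Tightness. -/
theorem Sit.tight (S : Sit R B r b X c) {x u x' : V} (hx : X x) (hbx : ¬ X (b x))
    (hu : Conn r b c u) (g : B.Adj x u) (hx' : X x') (hbx' : ¬ X (b x')) :
    Sim R B x' (b u) ∨ Sim R B (b x') (b u) := by
  by_contra hcon
  have n1 : ¬ Sim R B x' (b u) := fun h => hcon (Or.inl h)
  have n2 : ¬ Sim R B (b x') (b u) := fun h => hcon (Or.inr h)
  have hb := S.hM.pb
  have hr := S.hM.pr
  have sa := S.fact_a hbx hu g
  have hbu : Conn r b c (b u) := hu.trans (Conn.bstep u)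
  have xu : X u := S.hC _ hu
  have xbu : X (b u) := S.hC _ hbu
  have nx := S.nc hbx hu
  have nx' := S.nc hbx' hu
  obtain ⟨b', hb', e1, e2, e3, e4, e5, e6, e7⟩ := ex3PM hb (a := x) (c := u) (d := x')
    (by rintro rfl; exact nx (Conn.refl _))
    (by rintro rfl; exact hbx xu)
    (by rintro rfl; exact n2 sa)
    (by rintro rfl; exact hbx hx')
    (by rintro rfl; exact nx' (Conn.refl _))
    (by rintro rfl; exact nx' (Conn.bstep _).symm)
    g
    (by
      by_contra h
      have : Sim R B (b x) x' := ⟨fun h' => S.hX _ _ hx' hbx h'.symm, h⟩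
      exact n1 (S.hcm.tr _ _ _ this.symm sa))
    (by
      by_contra h
      exact n2 (Sim.symm ⟨S.hX _ _ xbu hbx', h⟩))
  have hU : Conn r b' u (b u) := by
    refine L0 hr hb u (fun w hw w1 w2 => e7 w ?_ ?_ w1 w2 ?_ ?_)
    · rintro rfl; exact nx hw.symm
    · rintro rfl; exact nx ((Conn.bstep _).trans hw.symm)
    · rintro rfl; exact nx' hw.symm
    · rintro rfl; exact nx' ((Conn.bstep _).trans hw.symm)
  have s1 : Conn r b' x u := by rw [← e1]; exact Conn.bstep x
  have s2 : Conn r b' (b x) x' := by rw [← e3]; exact Conn.bstep _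
  have s3 : Conn r b' (b x') (b u) := by rw [← e6]; exact Conn.bstep _
  refine nx (finish S.hcm S.hM S.hX hb' (e := x') (f := b u) hx' (by rw [e4]; exact hbx) xbu
    (by rw [e5]; exact hbx') ?_ (Or.inr (s1.trans hU)) (Or.inr hU))
  intro z hz
  by_cases k1 : z = x
  · subst k1; exact Or.inr (s1.trans hU)
  by_cases k2 : z = b x
  · subst k2; exact Or.inl s2
  by_cases k3 : z = u
  · subst k3; exact Or.inr hU
  by_cases k4 : z = b u
  · subst k4; exact Or.inr (Conn.refl _)
  by_cases k5 : z = x'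
  · subst k5; exact Or.inl (Conn.refl _)
  by_cases k6 : z = b x'
  · subst k6; exact Or.inr s3
  · exact absurd (e7 z k1 k2 k3 k4 k5 k6) hz

/-- Both ends of a red edge of crossing vertices cannot be red-only towards the component. -/
theorem Sit.T0 (S : Sit R B r b X c) {x : V} (hx : ¬ Conn r b c x)
    (h0 : ∀ u, Conn r b c u → ¬ B.Adj x u) (h1 : ∀ u, Conn r b c u → ¬ B.Adj (r x) u) :
    False := by
  have hr := S.hM.pr
  have rc : Conn r b c (r c) := Conn.rstep c
  have k1 : Sim R B x c ∨ Sim R B (r x) (r c) := by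
    by_cases g : R.Adj x c
    · exact Or.inr ⟨S.hM.no2r (fun h => hx h.symm) g, h1 _ rc⟩
    · exact Or.inl ⟨g, h0 _ (Conn.refl _)⟩
  have k2 : Sim R B x (r c) ∨ Sim R B (r x) c := by
    by_cases g : R.Adj x (r c)
    · refine Or.inr ⟨?_, h1 _ (Conn.refl _)⟩
      have := S.hM.no2r (fun h => hx (rc.trans h.symm)) g
      rwa [hr.inv] at this
    · exact Or.inl ⟨g, h0 _ rc⟩
  rcases k1 with k1 | k1 <;> rcases k2 with k2 | k2
  · exact (S.hcm.tr _ _ _ k1.symm k2).1 (hr.adj c)
  · exact (S.hcm.tr _ _ _ k1 k2.symm).1 (hr.adj x)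
  · exact (S.hcm.tr _ _ _ k2 k1.symm).1 (hr.adj x)
  · exact (S.hcm.tr _ _ _ k2.symm k1).1 (hr.adj c)

/-- Type 2: the red neighbour lies in the part of `b u`. -/
theorem Sit.T2 (S : Sit R B r b X c) {x u : V} (hx : X x) (hbx : ¬ X (b x))
    (hbx1 : ¬ X (b (r x))) (hu : Conn r b c u) (g : B.Adj x u)
    (hs : Sim R B (r x) (b u)) : False := by
  have hb := S.hM.pb
  have hr := S.hM.pr
  have tr := S.hcm.tr
  have hx1 : X (r x) := S.hX.r_mem hr hx
  have sa := S.fact_a hbx hu g
  have nx : ¬ Sim R B x (b u) := fun h => (tr _ _ _ h hs.symm).1 (hr.adj x)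
  by_cases hB : ∃ v, Conn r b c v ∧ B.Adj (r x) v
  · obtain ⟨v, hv, gv⟩ := hB
    have sz : Sim R B (b (r x)) (b v) := S.fact_a hbx1 hv gv
    have hxv : Sim R B x (b v) := by
      rcases S.tight hx1 hbx1 hv gv hx hbx with h | h
      · exact h
      · exfalso
        have h1 : Sim R B (b (r x)) (b u) := tr _ _ _ sz (tr _ _ _ h.symm sa)
        exact (tr _ _ _ hs h1.symm).2 (hb.adj _)
    set c2 := b v with hc2
    set c3 := r c2 with hc3
    have bc2 : b c2 = v := by rw [hc2, hb.inv]
    have C2 : Conn r b c c2 := hv.trans (Conn.bstep v)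
    have C3 : Conn r b c c3 := C2.trans (Conn.rstep _)
    have C4 : Conn r b c (b c3) := C3.trans (Conn.bstep _)
    have X2 := S.hC _ C2
    have X3 := S.hC _ C3
    have X4 := S.hC _ C4
    have Xv := S.hC _ hv
    have g3 : B.Adj x c3 := by
      by_contra hnb
      by_cases gr : R.Adj x c3
      · have h1 := S.hM.no2r (S.nc hbx C3) gr
        have h2 : r c3 = c2 := by rw [hc3, hr.inv]
        rw [h2] at h1
        have h3 : B.Adj (r x) c2 := by
          by_contra h4
          exact (tr _ _ _ hxv (Sim.symm ⟨h1, h4⟩)).1 (hr.adj x)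
        have h5 := S.fact_a hbx1 C2 h3
        rw [bc2] at h5
        exact (tr _ _ _ h5.symm sz).2 (hb.adj v)
      · exact (tr _ _ _ hxv.symm ⟨gr, hnb⟩).1 (hr.adj c2)
    have s4 : Sim R B (b x) (b c3) := S.fact_a hbx C3 g3
    have nyz : ¬ Sim R B (b x) (b (r x)) := fun h =>
      (tr _ _ _ hs (tr _ _ _ sa.symm h)).2 (hb.adj _)
    obtain ⟨b', hb', e1, e2, e3, e4, e5, e6, e7, e8, e9⟩ :=
      ex4PM hb (a := x) (c := c3) (d := c2) (e := b (r x))
      (fun h => S.nc hbx C3 (h ▸ Conn.refl _))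
      (fun h => hbx (h ▸ X3))
      (fun h => S.nc hbx C2 (h ▸ Conn.refl _))
      (fun h => hbx (h ▸ X2))
      (fun h => hr.ne c2 h.symm)
      (fun h => by
        have h1 : b c2 = r c2 := by rw [h, hb.inv, ← h, hc3]
        exact S.hcm.dis _ _ (hr.adj c2) (h1 ▸ hb.adj c2))
      (fun h => hbx1 (by rw [h]; exact hx))
      (fun h => hr.ne x (hb.inj h))
      (fun h => hbx1 (h ▸ X3))
      (fun h => hbx1 (h ▸ X4))
      (fun h => hbx1 (h ▸ X2))
      (fun h => hbx1 (by rw [h, bc2]; exact Xv))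
      g3
      (by
        by_contra h
        have h1 : Sim R B (b x) c2 := ⟨fun h' => S.hX _ _ X2 hbx h'.symm, h⟩
        exact (tr _ _ _ hxv h1.symm).2 (hb.adj x))
      (by
        by_contra h
        exact nyz (tr _ _ _ s4 ⟨S.hX _ _ X4 hbx1, h⟩))
      (by rw [bc2, hb.inv]; exact gv.symm)
    rw [bc2, hb.inv] at e7
    rw [bc2, hb.inv] at e8
    rw [bc2, hb.inv] at e9
    have t1 : Conn r b' x c3 := by rw [← e1]; exact Conn.bstep x
    have t2 : Conn r b' c3 c2 := (Conn.rstep c2).symm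
    have t3 : Conn r b' (b x) c2 := by rw [← e3]; exact Conn.bstep _
    have t4 : Conn r b' (b (r x)) (b c3) := by
      have := Conn.bstep (r := r) (b := b') (b (r x)); rwa [e6] at this
    have t5 : Conn r b' v (r x) := by rw [← e7]; exact Conn.bstep _
    have t6 : Conn r b' (r x) c2 := (Conn.rstep x).symm.trans (t1.trans t2)
    refine S.nc hbx C3 (finish S.hcm S.hM S.hX hb' (e := c2) (f := b c3) X2
      (by rw [e4]; exact hbx) X4 (by rw [e5]; exact hbx1) ?_ (Or.inl (t1.trans t2)) (Or.inl t2))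
    intro z hz
    by_cases k1 : z = x
    · subst k1; exact Or.inl (t1.trans t2)
    by_cases k2 : z = b x
    · subst k2; exact Or.inl t3
    by_cases k3 : z = c3
    · subst k3; exact Or.inl t2
    by_cases k4 : z = b c3
    · subst k4; exact Or.inr (Conn.refl _)
    by_cases k5 : z = c2
    · subst k5; exact Or.inl (Conn.refl _)
    by_cases k6 : z = v
    · subst k6; exact Or.inl (t5.trans t6)
    by_cases k7 : z = b (r x)
    · subst k7; exact Or.inr t4
    by_cases k8 : z = r x
    · subst k8; exact Or.inl t6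
    · exact absurd (e9 z k1 k2 k3 k4 k5 k6 k7 k8) hz
  · have hro : ∀ v, Conn r b c v → ¬ B.Adj (r x) v := fun v hv h => hB ⟨v, hv, h⟩
    set p := b u with hp
    have P : Conn r b c p := hu.trans (Conn.bstep u)
    have P' : Conn r b c (r p) := P.trans (Conn.rstep _)
    have h1 : R.Adj (r x) (r p) := by
      by_contra h
      exact (tr _ _ _ hs.symm ⟨h, hro _ P'⟩).1 (hr.adj p)
    have h2 := S.hM.no2r (S.nc hbx1 P') h1
    rw [hr.inv, hr.inv] at h2
    have h3 : B.Adj x p := by
      by_contra h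
      exact nx ⟨h2, h⟩
    have h4 := S.fact_a hbx P h3
    exact (tr _ _ _ sa.symm h4).2 (hb.adj p)

end core

end Pool.Agent.H35.AHC
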