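import Pool.Agent.H35.AHC.TypeOne

namespace Pool.Agent.H35.AHC

variable {V : Type*} [Finite V] {R B : SimpleGraph V} {r b : V → V}

/-- If every red component is small then a maximal factor is connected. -/
theorem main_conn (hcm : CM R B) (hM : MaxF R B r b)
    (hs : ∀ c : V, 3 * ({w | R.Reachable c w} : Set V).ncard < 2 * Nat.card V + 4) :
    ∀ u v, Conn r b u v := by
  by_contra hcon
  push Not at hcon
  obtain ⟨u, v, huv⟩ := hcon
  have hr := hM.pr
  have hb := hM.pb
  have tr := hcm.tr
  -- a component without outer vertices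
  obtain ⟨c, hc⟩ : ∃ c, ∀ w, Conn r b c w → R.Reachable w (b w) := by
    by_cases h1 : ∀ w, Conn r b u w → R.Reachable w (b w)
    · exact ⟨u, h1⟩
    · push Not at h1
      obtain ⟨w1, hw1, ho1⟩ := h1
      refine ⟨v, fun w hw => ?_⟩
      by_contra ho
      exact huv ((hw1.trans (outer hcm hM ho1 ho)).trans hw.symm)
  set X : V → Prop := fun w => R.Reachable c w with hXdef
  have hX : RedCut R X := fun x y hx hy hxy => hy (hx.trans hxy.reachable)
  have hC : ∀ w, Conn r b c w → X w := by
    intro w hw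
    have key := Conn.mem_iff (r := r) (b := b) (u := c) (v := w)
      (S := fun w => Conn r b c w ∧ X w)
      (fun w => ⟨fun h => ⟨h.1.trans (Conn.rstep w), hX.r_mem hr h.2⟩,
        fun h => ⟨h.1.trans (Conn.rstep w).symm, (hX.r_iff hr w).2 h.2⟩⟩)
      (fun w => ⟨fun h => ⟨h.1.trans (Conn.bstep w), h.2.trans (hc w h.1)⟩,
        fun h => ⟨h.1.trans (Conn.bstep w).symm,
          h.2.trans (hc w (h.1.trans (Conn.bstep w).symm)).symm⟩⟩) hw
    exact (key.1 ⟨Conn.refl _, SimpleGraph.Reachable.refl _⟩).2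
  have S : Sit R B r b X c := ⟨hcm, hM, hX, hC⟩
  have hY : ∀ y, ¬ X y → X (b y) := by
    intro y hy
    by_contra hby
    have xc : X c := SimpleGraph.Reachable.refl _
    have xbc : X (b c) := hC _ (Conn.bstep c)
    have := hM.conn (F1 hcm hr hb (hX _ _ xc hy) (hX _ _ xc hby) (hX _ _ xbc hy)
      (hX _ _ xbc hby))
    exact hy (hC _ this)
  -- the crossing vertices
  by_cases hE : ∃ x, X x ∧ ¬ X (b x) ∧ ¬ X (b (r x))
  · -- both ends of a red edge cross
    obtain ⟨x, hx, hbx, hbx1⟩ := hE
    have hx1 : X (r x) := hX.r_mem hr hx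
    have main : ∀ x, X x → ¬ X (b x) → ¬ X (b (r x)) →
        (∃ u, Conn r b c u ∧ B.Adj x u) → False := by
      rintro x hx hbx hbx1 ⟨u, hu, g⟩
      have hx1 : X (r x) := hX.r_mem hr hx
      rcases S.tight hx hbx hu g hx1 hbx1 with h | h
      · exact S.T2 hx hbx hbx1 hu g h
      · exact Sit1.false (x0 := x) (p := b u)
          ⟨S, hx, hbx, hbx1, S.fact_a hbx hu g, h, hu.trans (Conn.bstep u),
            fun e he hbe => S.tight hx hbx hu g he hbe, hY⟩
    by_cases k0 : ∃ u, Conn r b c u ∧ B.Adj x u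
    · exact main x hx hbx hbx1 k0
    by_cases k1 : ∃ u, Conn r b c u ∧ B.Adj (r x) u
    · exact main (r x) hx1 hbx1 (by rw [hr.inv]; exact hbx) k1
    · refine S.T0 (x := x) (fun h => S.nc hbx h (Conn.refl _))
        (fun u hu g => k0 ⟨u, hu, g⟩) (fun u hu g => k1 ⟨u, hu, g⟩)
  · -- counting
    push Not at hE
    set E : Set V := {x | X x ∧ ¬ X (b x)} with hEdef
    set Y : Set V := {y | ¬ X y} with hYdef
    set XX : Set V := {x | X x} with hXX
    set C : Set V := {c, r c, b c, b (r c)} with hCdef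
    have h1 : Y.ncard ≤ E.ncard := by
      refine Set.ncard_le_ncard_of_injOn b ?_ ?_ (Set.toFinite _)
      · intro y hy
        exact ⟨hY y hy, by rw [hb.inv]; exact hy⟩
      · intro y _ y' _ h
        exact hb.inj h
    have h2 : XX.ncard + Y.ncard = Nat.card V := by
      have : Y = XXᶜ := rfl
      rw [this, Set.ncard_add_ncard_compl]
    have h3 : 3 * XX.ncard < 2 * Nat.card V + 4 := hs c
    have hC4 : C.ncard = 4 := by
      have n1 : r c ≠ b c := fun h => hcm.dis _ _ (hr.adj c) (h ▸ hb.adj c)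
      have e1 : c ∉ ({r c, b c, b (r c)} : Set V) := by
        rintro (h | h | h)
        · exact hr.ne c h.symm
        · exact hb.ne c h.symm
        · rw [Set.mem_singleton_iff] at h
          apply n1
          rw [← hb.inv (r c), ← h]
      have e2 : r c ∉ ({b c, b (r c)} : Set V) := by
        rintro (h | h)
        · exact n1 h
        · exact hb.ne _ h.symm
      have e3 : b c ≠ b (r c) := fun h => hr.ne c (hb.inj h).symm
      rw [hCdef, Set.ncard_insert_of_notMem e1 (Set.toFinite _),
        Set.ncard_insert_of_notMem e2 (Set.toFinite _), Set.ncard_pair e3]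
    have hCC : ∀ z ∈ C, Conn r b c z := by
      rintro z (rfl | rfl | rfl | rfl)
      · exact Conn.refl _
      · exact Conn.rstep _
      · exact Conn.bstep _
      · exact (Conn.rstep _).trans (Conn.bstep _)
    have hEC : ∀ z ∈ E, ¬ Conn r b c z := fun z hz h => hz.2 (hC _ (h.trans (Conn.bstep z)))
    have d1 : Disjoint E (r '' E) := by
      rw [Set.disjoint_left]
      rintro z hz ⟨w, hw, rfl⟩
      exact hz.2 (hE w hw.1 hw.2)
    have d2 : Disjoint (E ∪ r '' E) C := by
      rw [Set.disjoint_left]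
      rintro z (hz | ⟨w, hw, rfl⟩) hzC
      · exact hEC z hz (hCC z hzC)
      · exact hEC w hw ((hCC _ hzC).trans (Conn.rstep w).symm)
    have hsub : (E ∪ r '' E) ∪ C ⊆ XX := by
      rintro z ((hz | ⟨w, hw, rfl⟩) | hz)
      · exact hz.1
      · exact hX.r_mem hr hw.1
      · exact hC _ (hCC z hz)
    have h4 := Set.ncard_le_ncard hsub (Set.toFinite _)
    rw [Set.ncard_union_eq d2 (Set.toFinite _) (Set.toFinite _),
      Set.ncard_union_eq d1 (Set.toFinite _) (Set.toFinite _),
      Set.ncard_image_of_injective _ (fun _ _ h => hr.inj h), hC4] at h4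
    omega

end Pool.Agent.H35.AHC
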