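import Pool.Agent.H35.AHC.Def
import Pool.Agent.H35.AHC.Main

namespace Pool.Agent.H35.AHC

variable {V : Type*} {R B : SimpleGraph V} {r b : V → V}

theorem val_parity {m : ℕ} (hm : 2 ≤ m) (i : ZMod (2 * m)) :
    Even (i + 1).val ↔ Odd i.val := by
  have : NeZero (2 * m) := ⟨by omega⟩
  rw [ZMod.val_add, ZMod.val_one_eq_one_mod, Nat.mod_eq_of_lt (show 1 < 2 * m by omega),
    Nat.even_iff, Nat.odd_iff, Nat.mod_mod_of_dvd _ (Dvd.intro m rfl)]
  omega

theorem HasAHC.swap (h : HasAHC R B) : HasAHC B R := by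
  obtain ⟨m, hm, f, hf⟩ := h
  refine ⟨m, hm, (Equiv.addRight (1 : ZMod (2 * m))).trans f, fun i => ⟨fun hi => ?_, fun hi => ?_⟩⟩
  · have h1 : Odd (i + 1).val := by
      rw [← Nat.not_even_iff_odd, val_parity hm, Nat.not_odd_iff_even]; exact hi
    exact (hf (i + 1)).2 h1
  · exact (hf (i + 1)).1 ((val_parity hm i).2 hi)

theorem HasAHC.exists_red (h : HasAHC R B) : ∃ r, IsPM R r := by
  classical
  obtain ⟨m, hm, f, hf⟩ := h
  have par : ∀ i : ZMod (2 * m), Even (i - 1).val ↔ Odd i.val := by
    intro i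
    have := val_parity hm (i - 1)
    rw [sub_add_cancel] at this
    rw [← Nat.not_even_iff_odd, this, Nat.not_odd_iff_even]
  refine ⟨fun v => if Even (f.symm v).val then f (f.symm v + 1) else f (f.symm v - 1), ?_, ?_⟩
  · intro v
    by_cases hv : Even (f.symm v).val
    · simp only [hv, if_true]
      have := (hf (f.symm v)).1 hv
      simpa using this
    · simp only [hv, if_false]
      have h1 := (hf (f.symm v - 1)).1 ((par _).2 (Nat.not_even_iff_odd.1 hv))
      simp only [sub_add_cancel, Equiv.apply_symm_apply] at h1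
      exact h1.symm
  · intro v
    by_cases hv : Even (f.symm v).val
    · have h1 : ¬ Even (f.symm v + 1).val := by
        rw [val_parity hm, Nat.not_odd_iff_even]; exact hv
      simp [hv, h1]
    · have h1 : Even (f.symm v - 1).val := (par _).2 (Nat.not_even_iff_odd.1 hv)
      simp [hv, h1]

theorem exists_isPM_iff {G : SimpleGraph V} :
    (∃ M : G.Subgraph, M.IsPerfectMatching) ↔ ∃ f, IsPM G f := by
  constructor
  · rintro ⟨M, hM⟩
    rw [SimpleGraph.Subgraph.isPerfectMatching_iff] at hM
    choose f hf hu using hM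
    refine ⟨f, fun v => (hf v).adj_sub, fun v => ?_⟩
    exact (hu (f v) v (hf v).symm).symm
  · rintro ⟨f, hf⟩
    refine ⟨{ verts := Set.univ
              Adj := fun u v => v = f u
              adj_sub := ?_
              edge_vert := fun _ => trivial
              symm := ?_ }, ?_⟩
    · rintro u v rfl; exact hf.adj u
    · exact ⟨fun u v h => by rw [h, hf.inv]⟩
    · rw [SimpleGraph.Subgraph.isPerfectMatching_iff]
      intro v
      exact ⟨f v, rfl, fun w hw => hw⟩

theorem hasAHC_of_conn [Finite V] [Nonempty V] (hdis : ∀ u v, R.Adj u v → ¬ B.Adj u v)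
    (hr : IsPM R r) (hb : IsPM B b) (hc : ∀ u v, Conn r b u v) : HasAHC R B := by
  classical
  obtain ⟨x⟩ := ‹Nonempty V›
  set t : V → V := fun z => b (r z) with ht
  have hinj : Function.Injective t := iter_inj hr hb
  set q := Function.minimalPeriod t x with hq
  have hq0 : 0 < q := Function.minimalPeriod_pos_of_mem_periodicPts (hinj.mem_periodicPts x)
  have hqx : t^[q] x = x := Function.isPeriodicPt_minimalPeriod t x
  have hit : ∀ i j, i < q → j < q → t^[i] x = t^[j] x → i = j := fun i j hi hj h =>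
    Function.iterate_injOn_Iio_minimalPeriod hi hj h
  have hne : ∀ i j, t^[i] x ≠ r (t^[j] x) := by
    intro i j h
    rcases le_total j i with hji | hij
    · apply iter_ne hr hb (i - j) (t^[j] x)
      change t^[i - j] (t^[j] x) = _
      rw [← Function.iterate_add_apply, Nat.sub_add_cancel hji, h]
    · apply iter_ne hr hb (j - i) (t^[i] x)
      change t^[j - i] (t^[i] x) = _
      rw [← Function.iterate_add_apply, Nat.sub_add_cancel hij, h, hr.inv]
  have hq2 : 2 ≤ q := by
    by_contra h
    have : q = 1 := by omega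
    rw [this] at hqx
    have h1 : b (r x) = x := hqx
    have h2 : b x = r x := by rw [← hb.inv (r x), h1]
    exact hdis _ _ (hr.adj x) (h2 ▸ hb.adj x)
  set g : ℕ → V := fun j => if Even j then t^[j / 2] x else r (t^[j / 2] x) with hg
  have g0 : g 0 = x := by simp [hg]
  have gq : g (2 * q) = x := by
    have : Even (2 * q) := even_two_mul q
    simp only [hg, this, if_true]
    rw [show 2 * q / 2 = q by omega, hqx]
  have gs1 : ∀ j, Even j → g (j + 1) = r (g j) := by
    intro j hj
    have h1 : ¬ Even (j + 1) := by rw [Nat.even_add_one]; simpa using hj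
    have h2 : (j + 1) / 2 = j / 2 := by
      obtain ⟨k, rfl⟩ := hj; omega
    simp only [hg, hj, h1, if_true, if_false, h2]
  have gs2 : ∀ j, Odd j → g (j + 1) = b (g j) := by
    intro j hj
    have h1 : Even (j + 1) := hj.add_one
    have h2 : (j + 1) / 2 = j / 2 + 1 := by
      obtain ⟨k, rfl⟩ := hj; omega
    have h3 : ¬ Even j := Nat.not_even_iff_odd.2 hj
    simp only [hg, h1, h3, if_true, if_false, h2]
    exact Function.iterate_succ_apply' t (j / 2) x
  have ginj : ∀ i j, i < 2 * q → j < 2 * q → g i = g j → i = j := by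
    intro i j hi hj h
    by_cases hie : Even i <;> by_cases hje : Even j
    · simp only [hg, hie, hje, if_true] at h
      have := hit _ _ (by omega) (by omega) h
      obtain ⟨k, rfl⟩ := hie
      obtain ⟨l, rfl⟩ := hje
      omega
    · simp only [hg, hie, hje, if_true, if_false] at h
      exact absurd h (hne _ _)
    · simp only [hg, hie, hje, if_true, if_false] at h
      exact absurd h.symm (hne _ _)
    · simp only [hg, hie, hje, if_false] at h
      have := hit _ _ (by omega) (by omega) (hr.inj h)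
      rw [Nat.not_even_iff_odd] at hie hje
      obtain ⟨k, rfl⟩ := hie
      obtain ⟨l, rfl⟩ := hje
      omega
  have gmod : ∀ j, j ≤ 2 * q → g (j % (2 * q)) = g j := by
    intro j hj
    rcases hj.lt_or_eq with h | h
    · rw [Nat.mod_eq_of_lt h]
    · rw [h, Nat.mod_self, g0, gq]
  have hsurj : ∀ v, ∃ j, j < 2 * q ∧ g j = v := by
    intro v
    have stepr : ∀ u, (∃ j, j < 2 * q ∧ g j = u) → ∃ j, j < 2 * q ∧ g j = r u := by
      rintro u ⟨j, hj, rfl⟩
      by_cases hje : Even j
      · refine ⟨j + 1, ?_, gs1 j hje⟩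
        obtain ⟨k, rfl⟩ := hje; omega
      · have hjo := Nat.not_even_iff_odd.1 hje
        obtain ⟨k, rfl⟩ := hjo
        refine ⟨2 * k, by omega, ?_⟩
        rw [gs1 (2 * k) (even_two_mul k), hr.inv]
    have stepb : ∀ u, (∃ j, j < 2 * q ∧ g j = u) → ∃ j, j < 2 * q ∧ g j = b u := by
      rintro u ⟨j, hj, rfl⟩
      by_cases hje : Even j
      · rcases Nat.eq_zero_or_pos j with h0 | h0
        · refine ⟨2 * q - 1, by omega, ?_⟩
          have h1 : Odd (2 * q - 1) := ⟨q - 1, by omega⟩
          have h2 := gs2 _ h1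
          rw [show 2 * q - 1 + 1 = 2 * q by omega, gq] at h2
          rw [h0, g0, h2, hb.inv]
        · obtain ⟨k, rfl⟩ := hje
          have h1 : Odd (k + k - 1) := ⟨k - 1, by omega⟩
          have h2 := gs2 _ h1
          rw [show k + k - 1 + 1 = k + k by omega] at h2
          exact ⟨k + k - 1, by omega, by rw [h2, hb.inv]⟩
      · have hjo := Nat.not_even_iff_odd.1 hje
        refine ⟨(j + 1) % (2 * q), Nat.mod_lt _ (by omega), ?_⟩
        rw [gmod _ (by omega), gs2 j hjo]
    have key := Conn.mem_iff (r := r) (b := b) (u := x) (v := v)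
      (S := fun w => ∃ j, j < 2 * q ∧ g j = w)
      (fun w => ⟨stepr w, fun h => by have := stepr _ h; rwa [hr.inv] at this⟩)
      (fun w => ⟨stepb w, fun h => by have := stepb _ h; rwa [hb.inv] at this⟩) (hc x v)
    exact key.1 ⟨0, by omega, g0⟩
  have : NeZero (2 * q) := ⟨by omega⟩
  have hbij : Function.Bijective (fun i : ZMod (2 * q) => g i.val) := by
    constructor
    · intro i j h
      exact ZMod.val_injective _ (ginj _ _ (ZMod.val_lt i) (ZMod.val_lt j) h)
    · intro v
      obtain ⟨j, hj, hv⟩ := hsurj v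
      refine ⟨(j : ZMod (2 * q)), ?_⟩
      simp only [ZMod.val_natCast, Nat.mod_eq_of_lt hj, hv]
  refine ⟨q, hq2, Equiv.ofBijective _ hbij, fun i => ?_⟩
  have hv1 : g (i + 1).val = g (i.val + 1) := by
    rw [ZMod.val_add, ZMod.val_one_eq_one_mod, Nat.mod_eq_of_lt (show 1 < 2 * q by omega)]
    exact gmod _ (by have := ZMod.val_lt i; omega)
  simp only [Equiv.ofBijective_apply]
  rw [hv1]
  constructor
  · intro hi
    rw [gs1 _ hi]; exact hr.adj _
  · intro hi
    rw [gs2 _ hi]; exact hb.adj _

/-- The theorem for small red components. -/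
theorem main_red [Finite V] [Nonempty V] (hdis : ∀ u v, R.Adj u v → ¬ B.Adj u v)
    (hcm : (R ⊔ B).IsCompleteMultipartite)
    (hs : ∀ K : R.ConnectedComponent, 3 * K.supp.ncard < 2 * Nat.card V + 4)
    (hR : ∃ M : R.Subgraph, M.IsPerfectMatching) (hB : ∃ M : B.Subgraph, M.IsPerfectMatching) :
    HasAHC R B := by
  rw [exists_isPM_iff] at hR hB
  obtain ⟨r0, hr0⟩ := hR
  obtain ⟨b0, hb0⟩ := hB
  obtain ⟨r, b, hM⟩ := exists_maxF hr0 hb0
  have hCM : CM R B := by
    refine ⟨hdis, fun u v w h1 h2 => ?_⟩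
    have h3 : ¬ (R ⊔ B).Adj u w := hcm.trans u v w
      (by rw [SimpleGraph.sup_adj]; exact fun h => h.elim h1.1 h1.2)
      (by rw [SimpleGraph.sup_adj]; exact fun h => h.elim h2.1 h2.2)
    rw [SimpleGraph.sup_adj] at h3
    exact ⟨fun h => h3 (Or.inl h), fun h => h3 (Or.inr h)⟩
  refine hasAHC_of_conn hdis hM.pr hM.pb (main_conn hCM hM (fun c => ?_))
  have h1 := hs (R.connectedComponentMk c)
  have h2 : (R.connectedComponentMk c).supp = ({w | R.Reachable c w} : Set V) := by
    ext w
    rw [SimpleGraph.ConnectedComponent.mem_supp_iff, SimpleGraph.ConnectedComponent.eq]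
    exact ⟨fun h => h.symm, fun h => SimpleGraph.Reachable.symm h⟩
  rwa [h2] at h1

/-- Small components in one of the colours: the characterization. -/
theorem main_iff [Finite V] [Nonempty V] (hdis : ∀ u v, R.Adj u v → ¬ B.Adj u v)
    (hcm : (R ⊔ B).IsCompleteMultipartite)
    (hs : (∀ K : R.ConnectedComponent, 3 * K.supp.ncard < 2 * Nat.card V + 4) ∨
      (∀ K : B.ConnectedComponent, 3 * K.supp.ncard < 2 * Nat.card V + 4)) :
    HasAHC R B ↔
      (∃ M : R.Subgraph, M.IsPerfectMatching) ∧ (∃ M : B.Subgraph, M.IsPerfectMatching) := by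
  constructor
  · intro h
    rw [exists_isPM_iff, exists_isPM_iff]
    exact ⟨h.exists_red, h.swap.exists_red⟩
  · rintro ⟨hR, hB⟩
    rcases hs with hs | hs
    · exact main_red hdis hcm hs hR hB
    · exact (main_red (fun u v h1 h2 => hdis u v h2 h1) (sup_comm R B ▸ hcm) hs hB hR).swap

end Pool.Agent.H35.AHC
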