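import Mathlib

namespace Pool.Agent.H35.AHC

/-- An alternating Hamiltonian cycle for the red graph `R` and the blue graph `B` on the vertex
set `V`: a cyclic ordering `f` of all vertices, of even length `2 * m ≥ 4`, whose consecutive
edges `f i, f (i + 1)` are alternately red and blue. -/
def HasAHC {V : Type*} (R B : SimpleGraph V) : Prop :=
  ∃ m : ℕ, 2 ≤ m ∧ ∃ f : ZMod (2 * m) ≃ V, ∀ i : ZMod (2 * m),
    (Even i.val → R.Adj (f i) (f (i + 1))) ∧ (Odd i.val → B.Adj (f i) (f (i + 1)))

end Pool.Agent.H35.AHC
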