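import Pool.Agent.H35.AHC.Merge

namespace Pool.Agent.H35.AHC

variable {V : Type*} [Finite V] {R B : SimpleGraph V} {r b : V → V}

/-- A cut without red edges. -/
def RedCut (R : SimpleGraph V) (X : V → Prop) : Prop := ∀ u v, X u → ¬ X v → ¬ R.Adj u v

omit [Finite V] in
theorem RedCut.compl {X : V → Prop} (h : RedCut R X) : RedCut R (fun v => ¬ X v) :=
  fun u v hu hv e => h v u (by simpa using hv) hu e.symm

omit [Finite V] in
theorem RedCut.r_mem {X : V → Prop} (h : RedCut R X) (hr : IsPM R r) {v : V} (hv : X v) :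
    X (r v) := by
  by_contra h'
  exact h v (r v) hv h' (hr.adj v)

omit [Finite V] in
theorem RedCut.r_iff {X : V → Prop} (h : RedCut R X) (hr : IsPM R r) (v : V) :
    X v ↔ X (r v) :=
  ⟨h.r_mem hr, fun h' => by have := h.r_mem hr h'; rwa [hr.inv] at this⟩

/-- Case (b), core. -/
theorem lemA_b_core {X : V → Prop} (hcm : CM R B) (hr : IsPM R r) (hb : IsPM B b)
    (hX : RedCut R X) {e f : V} (he : X e) (hf : X f) (hbf : ¬ X (b f))
    (hbf' : ¬ X (b (r f))) (hbe : ¬ X (b e))
    (p1 : Sim R B e (b f)) (p2 : Sim R B (r f) (b e)) (p3 : Sim R B (r e) (b (r f))) :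
    Merge B r b e f := by
  by_contra hm
  have hc : ¬ Conn r b e f := fun h => hm (Merge.of_conn hb h)
  have c1 : Conn r b f (b (r f)) := (Conn.rstep f).trans (Conn.bstep _)
  have c2 : Conn r b e (b e) := Conn.bstep e
  obtain ⟨b', hb', e1, e2, e3, e4, e5, e6, e7⟩ := ex3PM hb (a := e) (c := b (r f)) (d := f)
    (by rintro h; exact hbf' (h ▸ he))
    (by rintro h; exact hc (c2.trans (by rw [← h]; exact c1.symm)))
    (by rintro rfl; exact hc (Conn.refl _))
    (by rintro h; exact hbe (h ▸ hf))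
    (by rintro h; exact hbf' (h ▸ hf))
    (by rw [hb.inv]; exact fun h => hr.ne f h.symm)
    (by
      by_contra h
      exact (hcm.tr _ _ _ p3 (Sim.symm ⟨hX _ _ he hbf', h⟩)).1 (hr.adj e).symm)
    (by
      by_contra h
      exact (hcm.tr _ _ _ p2 ⟨fun h' => hX _ _ hf hbe h'.symm, h⟩).1 (hr.adj f).symm)
    (by
      rw [hb.inv]
      by_contra h
      have h' : Sim R B (r f) (b f) := ⟨hX _ _ (hX.r_mem hr hf) hbf, h⟩
      exact (hcm.tr _ _ _ p1 (hcm.tr _ _ _ h'.symm p2)).2 (hb.adj e))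
  rw [hb.inv] at e5 e6 e7
  have hE : Conn r b' e (b e) := by
    refine L0 hr hb e (fun w hw w1 w2 => e7 w w1 w2 ?_ ?_ ?_ ?_)
    · rintro rfl; exact hc (hw.trans c1.symm)
    · rintro rfl; exact hc (hw.trans (Conn.rstep f).symm)
    · rintro rfl; exact hc hw
    · rintro rfl; exact hc (hw.trans (Conn.bstep f).symm)
  have s1 : Conn r b' e (b (r f)) := by rw [← e1]; exact Conn.bstep e
  have s2 : Conn r b' (b e) f := by rw [← e3]; exact Conn.bstep _
  have s3 : Conn r b' (r f) (b f) := by rw [← e5]; exact Conn.bstep _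
  have s4 : Conn r b' f (r f) := Conn.rstep f
  have s5 : Conn r b' e f := hE.trans s2
  apply hm
  refine ⟨b', hb', ?_, s5⟩
  refine le3 hb (a := e) (c := r f) (d := f) (fun x g1 g2 g3 g4 g5 g6 => e7 x g1 g2 g4 g3 g5 g6)
    hE (s4.symm.trans (s5.symm.trans s1)) (s4.trans s3)

/-- Case (b): the `X`-vertices near `e` and `f` all cross. -/
theorem lemA_b {X : V → Prop} (hcm : CM R B) (hr : IsPM R r) (hb : IsPM B b)
    (hX : RedCut R X) {e f : V} (he : X e) (hf : X f) (hbe : ¬ X (b e)) (hbf : ¬ X (b f))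
    (hbe' : ¬ X (b (r e))) (hbf' : ¬ X (b (r f))) : Merge B r b e f := by
  by_contra hm
  have he' := hX.r_mem hr he
  have hf' := hX.r_mem hr hf
  have D : ∀ u v, Conn r b e u → Conn r b f v → X u → X v → ¬ X (b u) → ¬ X (b v) →
      Sim R B u (b v) ∨ Sim R B v (b u) := by
    intro u v hu hv xu xv xbu xbv
    by_cases g : B.Adj u (b v)
    · refine Or.inr ⟨hX _ _ xv xbu, fun g' => ?_⟩
      have := no2 hr hb hm hu (hv.trans (Conn.bstep v)) g
      rw [hb.inv] at this
      exact this g'.symm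
    · exact Or.inl ⟨hX _ _ xu xbv, g⟩
  have ce : Conn r b e (r e) := Conn.rstep e
  have cf : Conn r b f (r f) := Conn.rstep f
  have D1 := D e f (Conn.refl _) (Conn.refl _) he hf hbe hbf
  have D2 := D e (r f) (Conn.refl _) cf he hf' hbe hbf'
  have D3 := D (r e) f ce (Conn.refl _) he' hf hbe' hbf
  have D4 := D (r e) (r f) ce cf he' hf' hbe' hbf'
  have ne : ∀ w, Sim R B e w → Sim R B (r e) w → False := fun w h1 h2 =>
    (hcm.tr _ _ _ h1 h2.symm).1 (hr.adj e)
  have nf : ∀ w, Sim R B f w → Sim R B (r f) w → False := fun w h1 h2 =>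
    (hcm.tr _ _ _ h1 h2.symm).1 (hr.adj f)
  rcases D1 with D1 | D1
  · have D3' : Sim R B f (b (r e)) := D3.resolve_left (fun h => ne _ D1 h)
    have D4' : Sim R B (r e) (b (r f)) := D4.resolve_right (fun h => nf _ D3' h)
    have D2' : Sim R B (r f) (b e) := D2.resolve_left (fun h => ne _ h D4')
    exact hm (lemA_b_core hcm hr hb hX he hf hbf hbf' hbe D1 D2' D4')
  · have D2' : Sim R B e (b (r f)) := D2.resolve_right (fun h => nf _ D1 h)
    have D4' : Sim R B (r f) (b (r e)) := D4.resolve_left (fun h => ne _ D2' h)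
    have D3' : Sim R B (r e) (b f) := D3.resolve_right (fun h => nf _ h D4')
    have := lemA_b_core hcm hr hb hX he hf' hbf' (by rw [hr.inv]; exact hbf) hbe D2'
      (by rw [hr.inv]; exact D1) (by rw [hr.inv]; exact D3')
    exact hm (this.congr (Conn.refl _) cf.symm)

/-- Case (a): the component of `e` is fully crossing. -/
theorem lemA_a {X : V → Prop} (hcm : CM R B) (hr : IsPM R r) (hb : IsPM B b)
    (hX : RedCut R X) {e f : V} (he : X e) (hf : X f) (hbf : ¬ X (b f))
    (hfull : ∀ u, Conn r b e u → (X u ↔ ¬ X (b u))) : Merge B r b e f := by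
  by_contra hm
  have hc : ∀ u, Conn r b e u → ¬ Conn r b u f := fun u h1 h2 =>
    hm (Merge.of_conn hb (h1.trans h2))
  have D : ∀ u, Conn r b e u → X u → Sim R B u (b f) ∨ Sim R B (b u) f := by
    intro u hu xu
    have xbu : ¬ X (b u) := (hfull u hu).1 xu
    by_cases g : B.Adj u (b f)
    · refine Or.inr (Sim.symm ⟨hX _ _ hf xbu, fun g' => ?_⟩)
      have := no2 hr hb hm hu (Conn.bstep f) g
      rw [hb.inv] at this
      exact this g'.symm
    · exact Or.inl ⟨hX _ _ xu hbf, g⟩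
  -- choose u0 with `b u0` not similar to `f`
  have hex : ∃ u, Conn r b e u ∧ X u ∧ ¬ Sim R B (b u) f := by
    by_cases h0 : Sim R B (b e) f
    · refine ⟨b (r (b e)), ((Conn.bstep e).trans (Conn.rstep _)).trans (Conn.bstep _), ?_, ?_⟩
      · have hbe : ¬ X (b e) := (hfull e (Conn.refl _)).1 he
        have h1 : ¬ X (r (b e)) := fun h => hbe ((hX.r_iff hr _).2 h)
        have h2 := hfull (r (b e)) ((Conn.bstep e).trans (Conn.rstep _))
        by_contra h3
        exact h1 (h2.2 h3)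
      · rw [hb.inv]
        intro h1
        exact (hcm.tr _ _ _ h0 h1.symm).1 (hr.adj (b e))
    · exact ⟨e, Conn.refl _, he, h0⟩
  obtain ⟨u, hu, xu, nu⟩ := hex
  have a0 : Sim R B u (b f) := (D u hu xu).resolve_right nu
  have xu' : X (r u) := hX.r_mem hr xu
  have hu' : Conn r b e (r u) := hu.trans (Conn.rstep u)
  have na1 : ¬ Sim R B (r u) (b f) := fun h => (hcm.tr _ _ _ a0 h.symm).1 (hr.adj u)
  have b1 : Sim R B (b (r u)) f := (D (r u) hu' xu').resolve_left na1
  have xbu : ¬ X (b u) := (hfull u hu).1 xu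
  have xbu' : ¬ X (b (r u)) := (hfull _ hu').1 xu'
  have c1 : ∀ w, Conn r b u w → w ≠ f := fun w hw h => hc w (hu.trans hw) (h ▸ Conn.refl _)
  have c2 : ∀ w, Conn r b u w → w ≠ b f := fun w hw h =>
    hc w (hu.trans hw) (h ▸ (Conn.bstep f).symm)
  obtain ⟨b', hb', e1, e2, e3, e4, e5, e6, e7⟩ := ex3PM hb (a := u) (c := b (r u)) (d := f)
    (by intro h; apply xbu'; rw [h]; exact xu)
    (by rintro h; exact hr.ne u (hb.inj h))
    (c1 _ (Conn.refl _)).symm
    (c1 _ (Conn.bstep _)).symm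
    (c1 _ ((Conn.rstep _).trans (Conn.bstep _))).symm
    (by rw [hb.inv]; exact (c1 _ (Conn.rstep _)).symm)
    (by
      by_contra h
      have h' : Sim R B u (b (r u)) := ⟨hX _ _ xu xbu', h⟩
      exact (hcm.tr _ _ _ a0.symm (hcm.tr _ _ _ h' b1)).2 (hb.adj f).symm)
    (by
      by_contra h
      exact nu ⟨fun h' => hX _ _ hf xbu h'.symm, h⟩)
    (by
      rw [hb.inv]
      by_contra h
      exact na1 ⟨hX _ _ xu' hbf, h⟩)
  rw [hb.inv] at e5 e6 e7
  have hF : Conn r b' f (b f) := by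
    refine L0 hr hb f (fun w hw w1 w2 => e7 w ?_ ?_ ?_ ?_ w1 w2)
    · rintro rfl; exact hc _ hu hw.symm
    · rintro rfl; exact hc _ hu ((Conn.bstep _).trans hw.symm)
    · rintro rfl; exact hc _ hu ((Conn.rstep _).trans ((Conn.bstep _).trans hw.symm))
    · rintro rfl; exact hc _ hu ((Conn.rstep _).trans hw.symm)
  have s1 : Conn r b' u (b (r u)) := by rw [← e1]; exact Conn.bstep u
  have s2 : Conn r b' (b u) f := by rw [← e3]; exact Conn.bstep _
  have s3 : Conn r b' (r u) (b f) := by rw [← e5]; exact Conn.bstep _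
  have s4 : Conn r b' u (r u) := Conn.rstep u
  have s5 : Conn r b' u f := (s4.trans s3).trans hF.symm
  apply hm
  have hle : ∀ x y, Conn r b x y → Conn r b' x y :=
    le3 hb (a := u) (c := r u) (d := f) (fun x g1 g2 g3 g4 g5 g6 => e7 x g1 g2 g4 g3 g5 g6)
      (s5.trans s2.symm) (s4.symm.trans s1) hF
  exact ⟨b', hb', hle, (hle _ _ hu).trans s5⟩

/-- **Lemma A.** Any two blue edges crossing a cut without red edges can be merged. -/
theorem lemmaA {X : V → Prop} (hcm : CM R B) (hr : IsPM R r) (hb : IsPM B b)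
    (hX : RedCut R X) {e f : V} (he : X e) (hbe : ¬ X (b e)) (hf : X f) (hbf : ¬ X (b f)) :
    Merge B r b e f := by
  by_contra hm
  -- F1 facts
  have G : ∀ z w, Conn r b e z → Conn r b f w → X z → X (b z) → ¬ X w → ¬ X (b w) → False := by
    intro z w hz hw xz xbz xw xbw
    have h := F1 hcm hr hb (z := z) (w := w) (hX _ _ xz xw) (hX _ _ xz xbw) (hX _ _ xbz xw)
      (hX _ _ xbz xbw)
    exact hm (h.congr hz.symm hw.symm)
  have G' : ∀ z w, Conn r b e z → Conn r b f w → ¬ X z → ¬ X (b z) → X w → X (b w) →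
      False := by
    intro z w hz hw xz xbz xw xbw
    have h := F1 hcm hr hb (z := w) (w := z) (hX _ _ xw xz) (hX _ _ xw xbz) (hX _ _ xbw xz)
      (hX _ _ xbw xbz)
    exact hm (h.symm.congr hz.symm hw.symm)
  have ce : Conn r b e (r e) := Conn.rstep e
  have cf : Conn r b f (r f) := Conn.rstep f
  by_cases I1 : ∃ z, Conn r b e z ∧ X z ∧ X (b z)
  · obtain ⟨z, hz, xz, xbz⟩ := I1
    -- no Y-inner edge in component of f
    have n2 : ∀ w, Conn r b f w → ¬ X w → X (b w) := fun w hw xw => by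
      by_contra h
      exact G z w hz hw xz xbz xw h
    by_cases J1 : ∃ z, Conn r b e z ∧ ¬ X z ∧ ¬ X (b z)
    · obtain ⟨z', hz', xz', xbz'⟩ := J1
      have n3 : ∀ w, Conn r b f w → X w → ¬ X (b w) := fun w hw xw h =>
        G' z' w hz' hw xz' xbz' xw h
      have := lemA_a hcm hr hb hX (e := f) (f := e) hf he hbe
        (fun u hu => ⟨n3 u hu, fun h => by
          by_contra h'
          exact h (n2 u hu h')⟩)
      exact hm this.symm
    · have n1 : ∀ w, Conn r b e w → ¬ X w → X (b w) := fun w hw xw => by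
        by_contra h
        exact J1 ⟨w, hw, xw, h⟩
      have hY := hX.compl
      have hre : ¬ X (r (b e)) := fun h => hbe ((hX.r_iff hr _).2 h)
      have hrf : ¬ X (r (b f)) := fun h => hbf ((hX.r_iff hr _).2 h)
      have := lemA_b hcm hr hb hY (e := b e) (f := b f) hbe hbf
        (by rw [hb.inv]; exact fun h => h he) (by rw [hb.inv]; exact fun h => h hf)
        (fun h => h (n1 _ ((Conn.bstep e).trans (Conn.rstep _)) hre))
        (fun h => h (n2 _ ((Conn.bstep f).trans (Conn.rstep _)) hrf))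
      exact hm (this.congr (Conn.bstep e).symm (Conn.bstep f).symm)
  · have m1 : ∀ w, Conn r b e w → X w → ¬ X (b w) := fun w hw xw h => I1 ⟨w, hw, xw, h⟩
    by_cases J1 : ∃ z, Conn r b e z ∧ ¬ X z ∧ ¬ X (b z)
    · obtain ⟨z', hz', xz', xbz'⟩ := J1
      have n3 : ∀ w, Conn r b f w → X w → ¬ X (b w) := fun w hw xw h =>
        G' z' w hz' hw xz' xbz' xw h
      exact hm (lemA_b hcm hr hb hX he hf hbe hbf (m1 _ ce (hX.r_mem hr he))
        (n3 _ cf (hX.r_mem hr hf)))
    · refine hm (lemA_a hcm hr hb hX he hf hbf (fun u hu => ⟨m1 u hu, fun h => ?_⟩))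
      by_contra h'
      exact J1 ⟨u, hu, h', h⟩

end Pool.Agent.H35.AHC
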