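import Pool.Agent.H35.AHC.Core

namespace Pool.Agent.H35.AHC

variable {V : Type*} {R B : SimpleGraph V} {r b : V → V}

open Classical in
/-- The alternating walk: red step first. -/
noncomputable def wk (r b : V → V) : ℕ → V → V
  | 0, v => v
  | j + 1, v => if Even j then r (wk r b j v) else b (wk r b j v)

theorem wk_zero (r b : V → V) (v : V) : wk r b 0 v = v := rfl

theorem wk_even {r b : V → V} {j : ℕ} (hj : Even j) (v : V) :
    wk r b (j + 1) v = r (wk r b j v) := by
  simp [wk, hj]

theorem wk_odd {r b : V → V} {j : ℕ} (hj : Odd j) (v : V) :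
    wk r b (j + 1) v = b (wk r b j v) := by
  have : ¬ Even j := Nat.not_even_iff_odd.2 hj
  simp [wk, this]

theorem wk_conn (r b : V → V) (j : ℕ) (v : V) : Conn r b v (wk r b j v) := by
  induction j with
  | zero => exact Conn.refl _
  | succ j ih =>
    rcases Nat.even_or_odd j with h | h
    · rw [wk_even h]; exact ih.trans (Conn.rstep _)
    · rw [wk_odd h]; exact ih.trans (Conn.bstep _)

theorem wk_inj (hr : IsPM R r) (hb : IsPM B b) (j : ℕ) {u v : V}
    (h : wk r b j u = wk r b j v) : u = v := by
  induction j with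
  | zero => exact h
  | succ j ih =>
    rcases Nat.even_or_odd j with h1 | h1
    · rw [wk_even h1, wk_even h1] at h; exact ih (hr.inj h)
    · rw [wk_odd h1, wk_odd h1] at h; exact ih (hb.inj h)

theorem wk_add {r b : V → V} {k : ℕ} (hk : Even k) (i : ℕ) (v : V) :
    wk r b (k + i) v = wk r b i (wk r b k v) := by
  induction i with
  | zero => rfl
  | succ i ih =>
    rcases Nat.even_or_odd i with h | h
    · have h2 : Even (k + i) := hk.add h
      rw [← add_assoc, wk_even h2, wk_even h, ih]
    · have h2 : Odd (k + i) := hk.add_odd h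
      rw [← add_assoc, wk_odd h2, wk_odd h, ih]

theorem wk_two_mul (r b : V → V) (i : ℕ) (v : V) :
    wk r b (2 * i) v = (fun z => b (r z))^[i] v := by
  induction i with
  | zero => rfl
  | succ i ih =>
    have h1 : Even (2 * i) := even_two_mul i
    have h2 : Odd (2 * i + 1) := h1.add_one
    rw [show 2 * (i + 1) = 2 * i + 1 + 1 by ring, wk_odd h2, wk_even h1, ih,
      Function.iterate_succ_apply']

variable [Finite V] {X : V → Prop} {c : V}

/-- Every token dies at a pair of similar vertices before leaving `X`. -/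
theorem Sit.token (S : Sit R B r b X c)
    (hro : ∀ e, X e → ¬ X (b e) → ∀ u, Conn r b c u → ¬ B.Adj e u)
    {e d : V} (he : X e) (hbe : ¬ X (b e)) (hd : Conn r b c d) :
    ∃ j, (∀ i ≤ j, X (wk r b i e)) ∧ Sim R B (wk r b j e) (wk r b j d) := by
  by_contra hcon
  push Not at hcon
  have hr := S.hM.pr
  have hb := S.hM.pb
  have hCd : ∀ j, Conn r b c (wk r b j d) := fun j => hd.trans (wk_conn r b j d)
  have hne : ∀ j, ¬ Conn r b (wk r b j e) (wk r b j d) := fun j h =>
    S.nc hbe (hCd j) ((wk_conn r b j e).trans h)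
  have step : ∀ j, (∀ i ≤ j, X (wk r b i e)) →
      (Even j → R.Adj (wk r b j e) (wk r b j d)) ∧
      (Odd j → B.Adj (wk r b j e) (wk r b j d)) := by
    intro j
    induction j with
    | zero =>
      intro hx
      refine ⟨fun _ => ?_, fun h => absurd h (by decide)⟩
      by_contra h
      exact hcon 0 hx ⟨h, hro e he hbe _ (hCd 0)⟩
    | succ j ih =>
      intro hx
      have ih' := ih (fun i hi => hx i (by omega))
      rcases Nat.even_or_odd j with h | h
      · refine ⟨fun h' => absurd h' (by rw [Nat.even_add_one]; simpa using h), fun _ => ?_⟩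
        have h1 := S.hM.no2r (hne j) (ih'.1 h)
        rw [← wk_even (r := r) (b := b) h e, ← wk_even (r := r) (b := b) h d] at h1
        by_contra h2
        exact hcon (j + 1) hx ⟨h1, h2⟩
      · refine ⟨fun _ => ?_, fun h' => absurd h' (by
          rw [Nat.not_odd_iff_even]; exact h.add_one)⟩
        have h1 := S.hM.no2 (hne j) (ih'.2 h)
        rw [← wk_odd (r := r) (b := b) h e, ← wk_odd (r := r) (b := b) h d] at h1
        by_contra h2
        exact hcon (j + 1) hx ⟨h2, h1⟩
  have hX : ∀ j, ∀ i ≤ j, X (wk r b i e) := by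
    intro j
    induction j with
    | zero =>
      intro i hi
      have : i = 0 := by omega
      rw [this]; exact he
    | succ j ih =>
      intro i hi
      rcases hi.lt_or_eq with hi | hi
      · exact ih i (by omega)
      rw [hi]
      rcases Nat.even_or_odd j with h | h
      · rw [wk_even h]; exact S.hX.r_mem hr (ih j le_rfl)
      · rw [wk_odd h]
        by_contra h1
        exact hro _ (ih j le_rfl) h1 _ (hCd j) ((step j ih).2 h)
  obtain ⟨p, hp, hpe⟩ := (iter_inj hr hb).mem_periodicPts e
  have h1 : wk r b (2 * p) e = e := by rw [wk_two_mul]; exact hpe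
  have h2 : Odd (2 * p - 1) := ⟨p - 1, by omega⟩
  have h3 := wk_odd (r := r) (b := b) h2 e
  rw [show 2 * p - 1 + 1 = 2 * p by omega, h1] at h3
  have h4 : wk r b (2 * p - 1) e = b e := by
    have h5 := congrArg b h3
    rw [hb.inv] at h5
    exact h5.symm
  exact hbe (h4 ▸ hX (2 * p - 1) _ le_rfl)

/-- Some part is large. -/
theorem Sit.parts (S : Sit R B r b X c) (hY : ∀ y, ¬ X y → X (b y)) :
    ∃ v, X v ∧ ({y | ¬ X y} : Set V).ncard + 2 ≤ 2 * ({w | Sim R B v w} : Set V).ncard := by
  classical
  have : Fintype V := Fintype.ofFinite V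
  have hr := S.hM.pr
  have hb := S.hM.pb
  have tr := S.hcm.tr
  set Y : Set V := {y | ¬ X y} with hYd
  set E : Set V := {e | X e ∧ ¬ X (b e)} with hE
  have hYE : Y.ncard ≤ E.ncard := by
    refine Set.ncard_le_ncard_of_injOn b ?_ ?_ (Set.toFinite _)
    · intro y hy
      exact ⟨hY y hy, by rw [hb.inv]; exact hy⟩
    · intro y _ y' _ h
      exact hb.inj h
  by_cases hro : ∀ e, X e → ¬ X (b e) → ∀ u, Conn r b c u → ¬ B.Adj e u
  · -- tokens
    have htok : ∀ t : V × V, (t.1 ∈ E ∧ Conn r b c t.2) →
        ∃ j, (∀ i ≤ j, X (wk r b i t.1)) ∧ Sim R B (wk r b j t.1) (wk r b j t.2) :=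
      fun t ht => S.token hro ht.1.1 ht.1.2 ht.2
    choose! J hJ using htok
    set T : Finset (V × V) := Finset.univ.filter (fun t => t.1 ∈ E ∧ Conn r b c t.2) with hT
    set C : Finset V := Finset.univ.filter (fun u => Conn r b c u) with hC
    set EF : Finset V := Finset.univ.filter (fun u => u ∈ E) with hEF
    have hTcard : T.card = EF.card * C.card := by
      rw [hT, hEF, hC, ← Finset.card_product]
      congr 1
      ext t
      simp
    have hEFcard : EF.card = E.ncard := by
      rw [hEF, Set.ncard_eq_toFinset_card']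
      congr 1
      ext u
      simp
    have hmaps : ∀ t ∈ T, wk r b (J t) t.2 ∈ C := by
      intro t ht
      have ht' := (Finset.mem_filter.1 ht).2
      exact Finset.mem_filter.2 ⟨Finset.mem_univ _, ht'.2.trans (wk_conn r b _ _)⟩
    have hCne : C.Nonempty := ⟨c, Finset.mem_filter.2 ⟨Finset.mem_univ _, Conn.refl _⟩⟩
    obtain ⟨d, hd, hfib⟩ := Finset.exists_le_card_fiber_of_mul_le_card_of_maps_to
      (n := EF.card) hmaps hCne (by rw [hTcard, mul_comm])
    have hd' : Conn r b c d := (Finset.mem_filter.1 hd).2
    refine ⟨d, S.hC _ hd', ?_⟩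
    set Q : Finset V := Finset.univ.filter (fun v => ¬ Conn r b c v ∧ Sim R B d v) with hQ
    have hinj : (T.filter (fun t => wk r b (J t) t.2 = d)).card ≤
        (Q ×ˢ (Finset.univ : Finset Bool)).card := by
      refine Finset.card_le_card_of_injOn
        (fun t => (wk r b (J t) t.1, decide (Even (J t)))) ?_ ?_
      · intro t ht
        rw [Finset.mem_coe, Finset.mem_filter] at ht
        obtain ⟨ht, hw⟩ := ht
        have ht' := (Finset.mem_filter.1 ht).2
        have h1 := (hJ t ht').2
        rw [hw] at h1
        rw [Finset.mem_coe, Finset.mem_product]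
        refine ⟨Finset.mem_filter.2 ⟨Finset.mem_univ _, fun h => ?_, h1.symm⟩, Finset.mem_univ _⟩
        exact S.nc ht'.1.2 h ((wk_conn r b (J t) t.1))
      · intro t ht t' ht' heq
        rw [Finset.mem_coe, Finset.mem_filter] at ht ht'
        obtain ⟨ht, hw⟩ := ht
        obtain ⟨ht', hw'⟩ := ht'
        have hT1 := (Finset.mem_filter.1 ht).2
        have hT2 := (Finset.mem_filter.1 ht').2
        simp only [Prod.mk.injEq, decide_eq_decide] at heq
        obtain ⟨h1, h2⟩ := heq
        -- the two tokens have the same walk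
        have gen : ∀ t t' : V × V, (t.1 ∈ E ∧ Conn r b c t.2) → (t'.1 ∈ E ∧ Conn r b c t'.2) →
            wk r b (J t) t.1 = wk r b (J t') t'.1 → wk r b (J t) t.2 = wk r b (J t') t'.2 →
            (Even (J t) ↔ Even (J t')) → J t ≤ J t' → t = t' := by
          intro t t' hT1 hT2 h1 h3 h2 hle
          obtain ⟨k, hk⟩ : ∃ k, J t' = k + J t := ⟨J t' - J t, by omega⟩
          have hke : Even k := by
            rw [hk, Nat.even_add] at h2
            by_cases hh : Even (J t)
            · exact (h2.1 hh).2 hh
            · by_contra hk'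
              exact hh (h2.2 ⟨fun a => absurd a hk', fun a => absurd a hh⟩)
          rw [hk, wk_add hke] at h1 h3
          have h4 := wk_inj hr hb _ h1
          have h5 := wk_inj hr hb _ h3
          rcases Nat.eq_zero_or_pos k with hk0 | hk0
          · rw [hk0] at h4 h5
            exact Prod.ext h4 h5
          · exfalso
            obtain ⟨m, rfl⟩ : ∃ m, k = m + 1 := ⟨k - 1, by omega⟩
            have hmo : Odd m := by
              rw [Nat.even_add_one] at hke
              rwa [← Nat.not_even_iff_odd]
            rw [wk_odd hmo] at h4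
            apply hT1.1.2
            rw [h4, hb.inv]
            exact (hJ t' hT2).1 m (by omega)
        have h3 : wk r b (J t) t.2 = wk r b (J t') t'.2 := by rw [hw, hw']
        rcases le_total (J t) (J t') with hle | hle
        · exact gen t t' hT1 hT2 h1 h3 h2 hle
        · exact (gen t' t hT2 hT1 h1.symm h3.symm h2.symm hle).symm
    rw [Finset.card_product, Finset.card_univ, Fintype.card_bool] at hinj
    -- the part of `d` contains `Q` and `d`
    have hQd : insert d (Q : Set V) ⊆ {w | Sim R B d w} := by
      rintro w (rfl | hw)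
      · exact Sim.refl _
      · have := (Finset.mem_filter.1 (Finset.mem_coe.1 hw)).2
        exact this.2
    have hdQ : d ∉ (Q : Set V) := fun h => by
      have := (Finset.mem_filter.1 (Finset.mem_coe.1 h)).2
      exact this.1 hd'
    have h6 := Set.ncard_le_ncard hQd (Set.toFinite _)
    rw [Set.ncard_insert_of_notMem hdQ (Set.toFinite _), Set.ncard_coe_finset] at h6
    omega
  · -- some crossing vertex is blue to the component
    push Not at hro
    obtain ⟨x, hx, hbx, u, hu, g⟩ := hro
    have hp : Conn r b c (b u) := hu.trans (Conn.bstep u)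
    refine ⟨b u, S.hC _ hp, ?_⟩
    have ht : ∀ e, X e → ¬ X (b e) → Sim R B e (b u) ∨ Sim R B (b e) (b u) :=
      fun e he hbe => S.tight hx hbx hu g he hbe
    have h1 : E.ncard ≤ ({w | Sim R B (b u) w ∧ ¬ Conn r b c w} : Set V).ncard := by
      refine Set.ncard_le_ncard_of_injOn (fun e => if Sim R B e (b u) then e else b e) ?_ ?_
        (Set.toFinite _)
      · rintro e ⟨he, hbe⟩
        split_ifs with h
        · exact ⟨h.symm, fun h' => S.nc hbe h' (Conn.refl _)⟩
        · exact ⟨((ht e he hbe).resolve_left h).symm, fun h' => hbe (S.hC _ h')⟩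
      · rintro e ⟨he, hbe⟩ e' ⟨he', hbe'⟩ h
        beta_reduce at h
        split_ifs at h with h1 h2 h2
        · exact h
        · exact absurd (h ▸ he) hbe'
        · exact absurd (h.symm ▸ he') hbe
        · exact hb.inj h
    have h2 : insert (b u) ({w | Sim R B (b u) w ∧ ¬ Conn r b c w} : Set V) ⊆
        {w | Sim R B (b u) w} := by
      rintro w (rfl | hw)
      · exact Sim.refl _
      · exact hw.1
    have h3 : b u ∉ ({w | Sim R B (b u) w ∧ ¬ Conn r b c w} : Set V) := fun h => h.2 hp
    have h4 := Set.ncard_le_ncard h2 (Set.toFinite _)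
    rw [Set.ncard_insert_of_notMem h3 (Set.toFinite _)] at h4
    omega

end Pool.Agent.H35.AHC
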