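import Pool.Agent.H35.AHC.Cycle
import Pool.Agent.H35.AHC.Parts

namespace Pool.Agent.H35.AHC

variable {V : Type*} {R B : SimpleGraph V} {r b : V → V}

/-- If every red component is small, or no part meeting it is large compared with its complement,
then a maximal factor is connected. -/
theorem main_conn2 [Finite V] (hcm : CM R B) (hM : MaxF R B r b)
    (hs : ∀ c : V, 3 * ({w | R.Reachable c w} : Set V).ncard < 2 * Nat.card V + 4 ∨
      ∀ v, R.Reachable c v → 2 * ({w | Sim R B v w} : Set V).ncard +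
        ({w | R.Reachable c w} : Set V).ncard < Nat.card V + 2) :
    ∀ u v, Conn r b u v := by
  by_contra hcon
  push Not at hcon
  obtain ⟨u, v, huv⟩ := hcon
  have hr := hM.pr
  have hb := hM.pb
  have tr := hcm.tr
  -- a component without outer vertices
  obtain ⟨c, hc⟩ : ∃ c, ∀ w, Conn r b c w → R.Reachable w (b w) := by
    by_cases h1 : ∀ w, Conn r b u w → R.Reachable w (b w)
    · exact ⟨u, h1⟩
    · push Not at h1
      obtain ⟨w1, hw1, ho1⟩ := h1
      refine ⟨v, fun w hw => ?_⟩
      by_contra ho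
      exact huv ((hw1.trans (outer hcm hM ho1 ho)).trans hw.symm)
  set X : V → Prop := fun w => R.Reachable c w with hXdef
  have hX : RedCut R X := fun x y hx hy hxy => hy (hx.trans hxy.reachable)
  have hC : ∀ w, Conn r b c w → X w := by
    intro w hw
    have key := Conn.mem_iff (r := r) (b := b) (u := c) (v := w)
      (S := fun w => Conn r b c w ∧ X w)
      (fun w => ⟨fun h => ⟨h.1.trans (Conn.rstep w), hX.r_mem hr h.2⟩,
        fun h => ⟨h.1.trans (Conn.rstep w).symm, (hX.r_iff hr w).2 h.2⟩⟩)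
      (fun w => ⟨fun h => ⟨h.1.trans (Conn.bstep w), h.2.trans (hc w h.1)⟩,
        fun h => ⟨h.1.trans (Conn.bstep w).symm,
          h.2.trans (hc w (h.1.trans (Conn.bstep w).symm)).symm⟩⟩) hw
    exact (key.1 ⟨Conn.refl _, SimpleGraph.Reachable.refl _⟩).2
  have S : Sit R B r b X c := ⟨hcm, hM, hX, hC⟩
  have hY : ∀ y, ¬ X y → X (b y) := by
    intro y hy
    by_contra hby
    have xc : X c := SimpleGraph.Reachable.refl _
    have xbc : X (b c) := hC _ (Conn.bstep c)
    have := hM.conn (F1 hcm hr hb (hX _ _ xc hy) (hX _ _ xc hby) (hX _ _ xbc hy)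
      (hX _ _ xbc hby))
    exact hy (hC _ this)
  set Y : Set V := {y | ¬ X y} with hYdef
  set XX : Set V := {x | X x} with hXX
  have h2 : XX.ncard + Y.ncard = Nat.card V := by
    have : Y = XXᶜ := rfl
    rw [this, Set.ncard_add_ncard_compl]
  rcases hs c with hsc | hsp
  · -- the size condition
    by_cases hE : ∃ x, X x ∧ ¬ X (b x) ∧ ¬ X (b (r x))
    · -- both ends of a red edge cross
      obtain ⟨x, hx, hbx, hbx1⟩ := hE
      have hx1 : X (r x) := hX.r_mem hr hx
      have main : ∀ x, X x → ¬ X (b x) → ¬ X (b (r x)) →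
          (∃ u, Conn r b c u ∧ B.Adj x u) → False := by
        rintro x hx hbx hbx1 ⟨u, hu, g⟩
        have hx1 : X (r x) := hX.r_mem hr hx
        rcases S.tight hx hbx hu g hx1 hbx1 with h | h
        · exact S.T2 hx hbx hbx1 hu g h
        · exact Sit1.false (x0 := x) (p := b u)
            ⟨S, hx, hbx, hbx1, S.fact_a hbx hu g, h, hu.trans (Conn.bstep u),
              fun e he hbe => S.tight hx hbx hu g he hbe, hY⟩
      by_cases k0 : ∃ u, Conn r b c u ∧ B.Adj x u
      · exact main x hx hbx hbx1 k0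
      by_cases k1 : ∃ u, Conn r b c u ∧ B.Adj (r x) u
      · exact main (r x) hx1 hbx1 (by rw [hr.inv]; exact hbx) k1
      · refine S.T0 (x := x) (fun h => S.nc hbx h (Conn.refl _))
          (fun u hu g => k0 ⟨u, hu, g⟩) (fun u hu g => k1 ⟨u, hu, g⟩)
    · -- counting
      push Not at hE
      set E : Set V := {x | X x ∧ ¬ X (b x)} with hEdef
      set C : Set V := {c, r c, b c, b (r c)} with hCdef
      have h1 : Y.ncard ≤ E.ncard := by
        refine Set.ncard_le_ncard_of_injOn b ?_ ?_ (Set.toFinite _)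
        · intro y hy
          exact ⟨hY y hy, by rw [hb.inv]; exact hy⟩
        · intro y _ y' _ h
          exact hb.inj h
      have h3 : 3 * XX.ncard < 2 * Nat.card V + 4 := hsc
      have hC4 : C.ncard = 4 := by
        have n1 : r c ≠ b c := fun h => hcm.dis _ _ (hr.adj c) (h ▸ hb.adj c)
        have e1 : c ∉ ({r c, b c, b (r c)} : Set V) := by
          rintro (h | h | h)
          · exact hr.ne c h.symm
          · exact hb.ne c h.symm
          · rw [Set.mem_singleton_iff] at h
            apply n1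
            rw [← hb.inv (r c), ← h]
        have e2 : r c ∉ ({b c, b (r c)} : Set V) := by
          rintro (h | h)
          · exact n1 h
          · exact hb.ne _ h.symm
        have e3 : b c ≠ b (r c) := fun h => hr.ne c (hb.inj h).symm
        rw [hCdef, Set.ncard_insert_of_notMem e1 (Set.toFinite _),
          Set.ncard_insert_of_notMem e2 (Set.toFinite _), Set.ncard_pair e3]
      have hCC : ∀ z ∈ C, Conn r b c z := by
        rintro z (rfl | rfl | rfl | rfl)
        · exact Conn.refl _
        · exact Conn.rstep _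
        · exact Conn.bstep _
        · exact (Conn.rstep _).trans (Conn.bstep _)
      have hEC : ∀ z ∈ E, ¬ Conn r b c z := fun z hz h => hz.2 (hC _ (h.trans (Conn.bstep z)))
      have d1 : Disjoint E (r '' E) := by
        rw [Set.disjoint_left]
        rintro z hz ⟨w, hw, rfl⟩
        exact hz.2 (hE w hw.1 hw.2)
      have d2 : Disjoint (E ∪ r '' E) C := by
        rw [Set.disjoint_left]
        rintro z (hz | ⟨w, hw, rfl⟩) hzC
        · exact hEC z hz (hCC z hzC)
        · exact hEC w hw ((hCC _ hzC).trans (Conn.rstep w).symm)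
      have hsub : (E ∪ r '' E) ∪ C ⊆ XX := by
        rintro z ((hz | ⟨w, hw, rfl⟩) | hz)
        · exact hz.1
        · exact hX.r_mem hr hw.1
        · exact hC _ (hCC z hz)
      have h4 := Set.ncard_le_ncard hsub (Set.toFinite _)
      rw [Set.ncard_union_eq d2 (Set.toFinite _) (Set.toFinite _),
        Set.ncard_union_eq d1 (Set.toFinite _) (Set.toFinite _),
        Set.ncard_image_of_injective _ (fun _ _ h => hr.inj h), hC4] at h4
      omega
  · -- the condition on parts
    obtain ⟨v, hv, hlarge⟩ := S.parts hY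
    have h5 : 2 * ({w | Sim R B v w} : Set V).ncard + XX.ncard < Nat.card V + 2 := hsp v hv
    have h6 : Y.ncard + 2 ≤ 2 * ({w | Sim R B v w} : Set V).ncard := hlarge
    omega

/-- The criterion in terms of the red components. -/
theorem main2_red [Finite V] [Nonempty V] (hdis : ∀ u v, R.Adj u v → ¬ B.Adj u v)
    (hcm : (R ⊔ B).IsCompleteMultipartite)
    (hs : ∀ K : R.ConnectedComponent, 3 * K.supp.ncard < 2 * Nat.card V + 4 ∨
      ∀ v ∈ K.supp, 2 * ({w | ¬ (R ⊔ B).Adj v w} : Set V).ncard + K.supp.ncard < Nat.card V + 2)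
    (hR : ∃ M : R.Subgraph, M.IsPerfectMatching) (hB : ∃ M : B.Subgraph, M.IsPerfectMatching) :
    HasAHC R B := by
  rw [exists_isPM_iff] at hR hB
  obtain ⟨r0, hr0⟩ := hR
  obtain ⟨b0, hb0⟩ := hB
  obtain ⟨r, b, hM⟩ := exists_maxF hr0 hb0
  have hCM : CM R B := by
    refine ⟨hdis, fun u v w h1 h2 => ?_⟩
    have h3 : ¬ (R ⊔ B).Adj u w := hcm.trans u v w
      (by rw [SimpleGraph.sup_adj]; exact fun h => h.elim h1.1 h1.2)
      (by rw [SimpleGraph.sup_adj]; exact fun h => h.elim h2.1 h2.2)
    rw [SimpleGraph.sup_adj] at h3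
    exact ⟨fun h => h3 (Or.inl h), fun h => h3 (Or.inr h)⟩
  refine hasAHC_of_conn hdis hM.pr hM.pb (main_conn2 hCM hM (fun c => ?_))
  have h2 : (R.connectedComponentMk c).supp = ({w | R.Reachable c w} : Set V) := by
    ext w
    rw [SimpleGraph.ConnectedComponent.mem_supp_iff, SimpleGraph.ConnectedComponent.eq]
    exact ⟨fun h => h.symm, fun h => SimpleGraph.Reachable.symm h⟩
  have h4 : ∀ v, ({w | ¬ (R ⊔ B).Adj v w} : Set V) = {w | Sim R B v w} := by
    intro v
    ext w
    simp only [Set.mem_ofPred_eq, SimpleGraph.sup_adj, Sim]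
    exact ⟨fun h => ⟨fun h' => h (Or.inl h'), fun h' => h (Or.inr h')⟩,
      fun h h' => h'.elim h.1 h.2⟩
  rcases hs (R.connectedComponentMk c) with h1 | h1
  · left
    rwa [h2] at h1
  · right
    intro v hv
    have h5 := h1 v (by rw [h2]; exact hv)
    rwa [h2, h4] at h5

/-- The characterization. -/
theorem main2_iff [Finite V] [Nonempty V] (hdis : ∀ u v, R.Adj u v → ¬ B.Adj u v)
    (hcm : (R ⊔ B).IsCompleteMultipartite)
    (hs : (∀ K : R.ConnectedComponent, 3 * K.supp.ncard < 2 * Nat.card V + 4 ∨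
      ∀ v ∈ K.supp, 2 * ({w | ¬ (R ⊔ B).Adj v w} : Set V).ncard + K.supp.ncard <
        Nat.card V + 2) ∨
      (∀ K : B.ConnectedComponent, 3 * K.supp.ncard < 2 * Nat.card V + 4 ∨
      ∀ v ∈ K.supp, 2 * ({w | ¬ (R ⊔ B).Adj v w} : Set V).ncard + K.supp.ncard <
        Nat.card V + 2)) :
    HasAHC R B ↔
      (∃ M : R.Subgraph, M.IsPerfectMatching) ∧ (∃ M : B.Subgraph, M.IsPerfectMatching) := by
  constructor
  · intro h
    rw [exists_isPM_iff, exists_isPM_iff]
    exact ⟨h.exists_red, h.swap.exists_red⟩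
  · rintro ⟨hR, hB⟩
    rcases hs with hs | hs
    · exact main2_red hdis hcm hs hR hB
    · refine (main2_red (fun u v h1 h2 => hdis u v h2 h1) (sup_comm R B ▸ hcm) ?_ hB hR).swap
      rw [sup_comm R B] at hs
      exact hs

end Pool.Agent.H35.AHC
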