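import Pool.Agent.H35.AHC.Basic

namespace Pool.Agent.H35.AHC

variable {V : Type*}

/-- Two vertices in the same part. -/
def Sim (R B : SimpleGraph V) (u v : V) : Prop := ¬ R.Adj u v ∧ ¬ B.Adj u v

/-- The colours are disjoint and non-adjacency is transitive. -/
structure CM (R B : SimpleGraph V) : Prop where
  dis : ∀ u v, R.Adj u v → ¬ B.Adj u v
  tr : ∀ u v w, Sim R B u v → Sim R B v w → Sim R B u w

theorem Sim.symm {R B : SimpleGraph V} {u v : V} (h : Sim R B u v) : Sim R B v u :=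
  ⟨fun h' => h.1 h'.symm, fun h' => h.2 h'.symm⟩

theorem Sim.refl {R B : SimpleGraph V} (u : V) : Sim R B u u :=
  ⟨R.loopless.irrefl u, B.loopless.irrefl u⟩

theorem Sim.swap {R B : SimpleGraph V} {u v : V} (h : Sim R B u v) : Sim B R u v := ⟨h.2, h.1⟩

theorem CM.swap {R B : SimpleGraph V} (h : CM R B) : CM B R :=
  ⟨fun u v h1 h2 => h.dis u v h2 h1, fun u v w h1 h2 => (h.tr u v w h1.swap h2.swap).swap⟩

/-- The components of `u` and `v` can be joined by changing only the blue matching. -/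
def Merge (B : SimpleGraph V) (r b : V → V) (u v : V) : Prop :=
  ∃ b', IsPM B b' ∧ (∀ x y, Conn r b x y → Conn r b' x y) ∧ Conn r b' u v

section

variable {R B : SimpleGraph V} {r b : V → V} {u v u' v' : V}

theorem Merge.of_conn (hb : IsPM B b) (h : Conn r b u v) : Merge B r b u v :=
  ⟨b, hb, fun _ _ h => h, h⟩

theorem Merge.congr (h : Merge B r b u v) (hu : Conn r b u u') (hv : Conn r b v v') :
    Merge B r b u' v' := by
  obtain ⟨b', h1, h2, h3⟩ := h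
  exact ⟨b', h1, h2, ((h2 _ _ hu).symm.trans h3).trans (h2 _ _ hv)⟩

theorem Merge.symm (h : Merge B r b u v) : Merge B r b v u := by
  obtain ⟨b', h1, h2, h3⟩ := h
  exact ⟨b', h1, h2, h3.symm⟩

/-- The 2-exchange as perfect matchings. -/
theorem ex2PM (hb : IsPM B b) (h1 : v ≠ u) (h2 : v ≠ b u) (g1 : B.Adj u v)
    (g2 : B.Adj (b u) (b v)) :
    ∃ b' : V → V, IsPM B b' ∧ b' u = v ∧ b' v = u ∧ b' (b u) = b v ∧ b' (b v) = b u ∧
      ∀ x, x ≠ u → x ≠ v → x ≠ b u → x ≠ b v → b' x = b x := by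
  obtain ⟨b', i, n, e1, e2, e3, e4, e5⟩ := ex2 hb.inv hb.ne h1 h2
  refine ⟨b', ⟨fun x => ?_, i⟩, e1, e2, e3, e4, e5⟩
  by_cases k1 : x = u
  · subst k1; rw [e1]; exact g1
  by_cases k2 : x = v
  · subst k2; rw [e2]; exact g1.symm
  by_cases k3 : x = b u
  · subst k3; rw [e3]; exact g2
  by_cases k4 : x = b v
  · subst k4; rw [e4]; exact g2.symm
  · rw [e5 x k1 k2 k3 k4]; exact hb.adj x

/-- The 3-exchange as perfect matchings. -/
theorem ex3PM (hb : IsPM B b) {a c d : V}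
    (h1 : c ≠ a) (h2 : c ≠ b a) (h3 : d ≠ a) (h4 : d ≠ b a) (h5 : d ≠ c) (h6 : d ≠ b c)
    (g1 : B.Adj a c) (g2 : B.Adj (b a) d) (g3 : B.Adj (b c) (b d)) :
    ∃ b' : V → V, IsPM B b' ∧ b' a = c ∧ b' c = a ∧
      b' (b a) = d ∧ b' d = b a ∧ b' (b c) = b d ∧ b' (b d) = b c ∧
      ∀ x, x ≠ a → x ≠ b a → x ≠ c → x ≠ b c → x ≠ d → x ≠ b d → b' x = b x := by
  obtain ⟨b', i, n, e1, e2, e3, e4, e5, e6, e7⟩ := ex3 hb.inv hb.ne h1 h2 h3 h4 h5 h6
  refine ⟨b', ⟨fun x => ?_, i⟩, e1, e2, e3, e4, e5, e6, e7⟩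
  by_cases k1 : x = a
  · subst k1; rw [e1]; exact g1
  by_cases k2 : x = b a
  · subst k2; rw [e3]; exact g2
  by_cases k3 : x = c
  · subst k3; rw [e2]; exact g1.symm
  by_cases k4 : x = b c
  · subst k4; rw [e5]; exact g3
  by_cases k5 : x = d
  · subst k5; rw [e4]; exact g2.symm
  by_cases k6 : x = b d
  · subst k6; rw [e6]; exact g3.symm
  · rw [e7 x k1 k2 k3 k4 k5 k6]; exact hb.adj x

/-- The 4-exchange as perfect matchings. -/
theorem ex4PM (hb : IsPM B b) {a c d e : V}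
    (h1 : c ≠ a) (h2 : c ≠ b a) (h3 : d ≠ a) (h4 : d ≠ b a) (h5 : d ≠ c) (h6 : d ≠ b c)
    (h7 : e ≠ a) (h8 : e ≠ b a) (h9 : e ≠ c) (h10 : e ≠ b c) (h11 : e ≠ d) (h12 : e ≠ b d)
    (g1 : B.Adj a c) (g2 : B.Adj (b a) d) (g3 : B.Adj (b c) e) (g4 : B.Adj (b d) (b e)) :
    ∃ b' : V → V, IsPM B b' ∧ b' a = c ∧ b' c = a ∧
      b' (b a) = d ∧ b' d = b a ∧ b' (b c) = e ∧ b' e = b c ∧ b' (b d) = b e ∧
      b' (b e) = b d ∧
      ∀ x, x ≠ a → x ≠ b a → x ≠ c → x ≠ b c → x ≠ d → x ≠ b d → x ≠ e → x ≠ b e →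
        b' x = b x := by
  obtain ⟨b', i, n, e1, e2, e3, e4, e5, e6, e7, e8, e9⟩ :=
    ex4 hb.inv hb.ne h1 h2 h3 h4 h5 h6 h7 h8 h9 h10 h11 h12
  refine ⟨b', ⟨fun x => ?_, i⟩, e1, e2, e3, e4, e5, e6, e7, e8, e9⟩
  by_cases k1 : x = a
  · subst k1; rw [e1]; exact g1
  by_cases k2 : x = b a
  · subst k2; rw [e3]; exact g2
  by_cases k3 : x = c
  · subst k3; rw [e2]; exact g1.symm
  by_cases k4 : x = b c
  · subst k4; rw [e5]; exact g3
  by_cases k5 : x = d
  · subst k5; rw [e4]; exact g2.symm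
  by_cases k6 : x = b d
  · subst k6; rw [e7]; exact g4
  by_cases k7 : x = e
  · subst k7; rw [e6]; exact g3.symm
  by_cases k8 : x = b e
  · subst k8; rw [e8]; exact g4.symm
  · rw [e9 x k1 k2 k3 k4 k5 k6 k7 k8]; exact hb.adj x

theorem le3 {b' : V → V} (hb : IsPM B b) {a c d : V}
    (h : ∀ x, x ≠ a → x ≠ b a → x ≠ c → x ≠ b c → x ≠ d → x ≠ b d → b' x = b x)
    (ha : Conn r b' a (b a)) (hc : Conn r b' c (b c)) (hd : Conn r b' d (b d)) :
    ∀ x y, Conn r b x y → Conn r b' x y := by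
  intro x y hxy
  refine le_of_exchange (fun z hz => ?_) hxy
  by_cases k1 : z = a
  · subst k1; exact ha
  by_cases k2 : z = b a
  · subst k2; rw [hb.inv]; exact ha.symm
  by_cases k3 : z = c
  · subst k3; exact hc
  by_cases k4 : z = b c
  · subst k4; rw [hb.inv]; exact hc.symm
  by_cases k5 : z = d
  · subst k5; exact hd
  by_cases k6 : z = b d
  · subst k6; rw [hb.inv]; exact hd.symm
  · exact absurd (h z k1 k2 k3 k4 k5 k6) hz

theorem le4 {b' : V → V} (hb : IsPM B b) {a c d e : V}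
    (h : ∀ x, x ≠ a → x ≠ b a → x ≠ c → x ≠ b c → x ≠ d → x ≠ b d → x ≠ e → x ≠ b e →
      b' x = b x)
    (ha : Conn r b' a (b a)) (hc : Conn r b' c (b c)) (hd : Conn r b' d (b d))
    (he : Conn r b' e (b e)) :
    ∀ x y, Conn r b x y → Conn r b' x y := by
  intro x y hxy
  refine le_of_exchange (fun z hz => ?_) hxy
  by_cases k1 : z = a
  · subst k1; exact ha
  by_cases k2 : z = b a
  · subst k2; rw [hb.inv]; exact ha.symm
  by_cases k3 : z = c
  · subst k3; exact hc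
  by_cases k4 : z = b c
  · subst k4; rw [hb.inv]; exact hc.symm
  by_cases k5 : z = d
  · subst k5; exact hd
  by_cases k6 : z = b d
  · subst k6; rw [hb.inv]; exact hd.symm
  by_cases k7 : z = e
  · subst k7; exact he
  by_cases k8 : z = b e
  · subst k8; rw [hb.inv]; exact he.symm
  · exact absurd (h z k1 k2 k3 k4 k5 k6 k7 k8) hz

theorem le2 {b' : V → V} (hb : IsPM B b) {u v : V}
    (h : ∀ x, x ≠ u → x ≠ v → x ≠ b u → x ≠ b v → b' x = b x)
    (ha : Conn r b' u (b u)) (hc : Conn r b' v (b v)) :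
    ∀ x y, Conn r b x y → Conn r b' x y := by
  intro x y hxy
  refine le_of_exchange (fun z hz => ?_) hxy
  by_cases k1 : z = u
  · subst k1; exact ha
  by_cases k2 : z = b u
  · subst k2; rw [hb.inv]; exact ha.symm
  by_cases k3 : z = v
  · subst k3; exact hc
  by_cases k4 : z = b v
  · subst k4; rw [hb.inv]; exact hc.symm
  · exact absurd (h z k1 k3 k2 k4) hz

variable [Finite V]

/-- The 2-exchange merges components. -/
theorem merge2 (hr : IsPM R r) (hb : IsPM B b) (g1 : B.Adj u v) (g2 : B.Adj (b u) (b v)) :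
    Merge B r b u v := by
  by_cases hc : Conn r b u v
  · exact Merge.of_conn hb hc
  have h1 : v ≠ u := fun h => hc (h ▸ Conn.refl _)
  have h2 : v ≠ b u := fun h => hc (h ▸ Conn.bstep _)
  obtain ⟨b', hb', e1, e2, e3, e4, e5⟩ := ex2PM hb h1 h2 g1 g2
  have hu : Conn r b' u (b u) := by
    refine L0 hr hb u (fun w hw w1 w2 => e5 w w1 ?_ w2 ?_)
    · rintro rfl; exact hc hw
    · rintro rfl; exact hc (hw.trans (Conn.bstep v).symm)
  have hv : Conn r b' v (b v) := by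
    refine L0 hr hb v (fun w hw w1 w2 => e5 w ?_ w1 ?_ w2)
    · rintro rfl; exact hc hw.symm
    · rintro rfl; exact hc ((Conn.bstep u).trans hw.symm)
  refine ⟨b', hb', le2 hb e5 hu hv, ?_⟩
  have := Conn.bstep (r := r) (b := b') u
  rwa [e1] at this

/-- Consequence of the 2-exchange. -/
theorem no2 (hr : IsPM R r) (hb : IsPM B b) (hm : ¬ Merge B r b u v) (hu : Conn r b u u')
    (hv : Conn r b v v') (g1 : B.Adj u' v') : ¬ B.Adj (b u') (b v') := fun g2 =>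
  hm ((merge2 hr hb g1 g2).congr hu.symm hv.symm)

/-- If there are no red edges between `{z, b z}` and `{w, b w}` then they can be merged. -/
theorem F1 (hcm : CM R B) (hr : IsPM R r) (hb : IsPM B b) {z w : V}
    (h1 : ¬ R.Adj z w) (h2 : ¬ R.Adj z (b w)) (h3 : ¬ R.Adj (b z) w)
    (h4 : ¬ R.Adj (b z) (b w)) : Merge B r b z w := by
  by_contra hm
  have k1 : Sim R B z w ∨ Sim R B (b z) (b w) := by
    by_cases g : B.Adj z w
    · exact Or.inr ⟨h4, no2 hr hb hm (Conn.refl _) (Conn.refl _) g⟩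
    · exact Or.inl ⟨h1, g⟩
  have k2 : Sim R B z (b w) ∨ Sim R B (b z) w := by
    by_cases g : B.Adj z (b w)
    · refine Or.inr ⟨h3, ?_⟩
      have := no2 hr hb hm (Conn.refl _) (Conn.bstep w) g
      rwa [hb.inv] at this
    · exact Or.inl ⟨h2, g⟩
  rcases k1 with k1 | k1 <;> rcases k2 with k2 | k2
  · exact (hcm.tr _ _ _ k1.symm k2).2 (hb.adj w)
  · exact (hcm.tr _ _ _ k1 k2.symm).2 (hb.adj z)
  · exact (hcm.tr _ _ _ k2 k1.symm).2 (hb.adj z)
  · exact (hcm.tr _ _ _ k2.symm k1).2 (hb.adj w)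

end

end Pool.Agent.H35.AHC
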