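import Pool.Agent.H35.AHC.Core

namespace Pool.Agent.H35.AHC

variable {V : Type*} {R B : SimpleGraph V} {r b : V → V}

/-- The data of type 1. -/
structure Sit1 (R B : SimpleGraph V) (r b : V → V) (X : V → Prop) (c x0 p : V) : Prop where
  S : Sit R B r b X c
  hx0 : X x0
  hb0 : ¬ X (b x0)
  hb1 : ¬ X (b (r x0))
  s0 : Sim R B (b x0) p
  s1 : Sim R B (b (r x0)) p
  hp : Conn r b c p
  tight : ∀ e, X e → ¬ X (b e) → Sim R B e p ∨ Sim R B (b e) p
  hY : ∀ y, ¬ X y → X (b y)

/-- The set of vertices used for counting. -/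
def Z0 (R B : SimpleGraph V) (r b : V → V) (X : V → Prop) (c p s : V) : Prop :=
  X s ∧ ¬ Conn r b c s ∧ Sim R B s p ∧ ∀ u, Conn r b c u → ¬ B.Adj s u

variable [Finite V] {X : V → Prop} {c x0 p : V}

theorem Sit1.i (T : Sit1 R B r b X c x0 p) {x u : V} (hbx : ¬ X (b x))
    (sx : Sim R B (b x) p) (hu : Conn r b c u) (su : Sim R B u p) : R.Adj x u := by
  have tr := T.S.hcm.tr
  by_contra h
  by_cases g : B.Adj x u
  · have := T.S.fact_a hbx hu g
    exact (tr _ _ _ (tr _ _ _ su sx.symm) this).2 (T.S.hM.pb.adj u)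
  · exact (tr _ _ _ ⟨h, g⟩ (tr _ _ _ su sx.symm)).2 (T.S.hM.pb.adj x)

theorem Sit1.iii (T : Sit1 R B r b X c x0 p) {u : V} (hu : Conn r b c u)
    (su : Sim R B u p) : B.Adj x0 (r u) ∨ B.Adj (r x0) (r u) := by
  have tr := T.S.hcm.tr
  have hr := T.S.hM.pr
  have h0 := T.S.hM.no2r (T.S.nc T.hb0 hu) (T.i T.hb0 T.s0 hu su)
  have h1 := T.S.hM.no2r (T.S.nc T.hb1 hu) (T.i T.hb1 T.s1 hu su)
  rw [hr.inv] at h1
  by_contra hcon
  have n1 : ¬ B.Adj x0 (r u) := fun h => hcon (Or.inl h)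
  have n2 : ¬ B.Adj (r x0) (r u) := fun h => hcon (Or.inr h)
  exact (tr _ _ _ ⟨h1, n1⟩ (Sim.symm ⟨h0, n2⟩)).1 (hr.adj x0)

theorem Sit1.iv (T : Sit1 R B r b X c x0 p) {u : V} (hu : Conn r b c u)
    (su : Sim R B u p) : Sim R B (b (r u)) p := by
  have tr := T.S.hcm.tr
  have hru : Conn r b c (r u) := hu.trans (Conn.rstep u)
  rcases T.iii hu su with h | h
  · exact tr _ _ _ (T.S.fact_a T.hb0 hru h).symm T.s0
  · exact tr _ _ _ (T.S.fact_a T.hb1 hru h).symm T.s1

theorem Sit1.v (T : Sit1 R B r b X c x0 p) {u : V} (hu : Conn r b c u)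
    (su : Sim R B u p) : Sim R B (r (b u)) p := by
  have hr := T.S.hM.pr
  have hb := T.S.hM.pb
  obtain ⟨n, hn, hnu⟩ := (iter_inj hr hb).mem_periodicPts u
  have key : ∀ i, Sim R B ((fun z => b (r z))^[i] u) p := by
    intro i
    induction i with
    | zero => exact su
    | succ i ih =>
      rw [Function.iterate_succ_apply']
      exact T.iv (hu.trans (iter_conn r b i u)) ih
  obtain ⟨m, rfl⟩ : ∃ m, n = m + 1 := ⟨n - 1, by omega⟩
  have h1 : b (r ((fun z => b (r z))^[m] u)) = u := by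
    rw [← Function.iterate_succ_apply' (fun z => b (r z))]; exact hnu
  have h2 : r (b u) = (fun z => b (r z))^[m] u := by
    conv_lhs => rw [← h1]
    rw [hb.inv, hr.inv]
  rw [h2]; exact key m

theorem Sit1.D (T : Sit1 R B r b X c x0 p) {u : V} (hu : Conn r b c u) :
    Sim R B u p ∨ Sim R B (r u) p := by
  have hr := T.S.hM.pr
  have hb := T.S.hM.pb
  have step : ∀ w, Conn r b c w → (Sim R B w p ∨ Sim R B (r w) p) →
      (Sim R B (b w) p ∨ Sim R B (r (b w)) p) := by
    intro w hw h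
    rcases h with h | h
    · exact Or.inr (T.v hw h)
    · left
      have := T.iv (hw.trans (Conn.rstep w)) h
      rwa [hr.inv] at this
  have key := Conn.mem_iff (r := r) (b := b) (u := p) (v := u)
    (S := fun w => Conn r b c w ∧ (Sim R B w p ∨ Sim R B (r w) p))
    (fun w => ⟨fun h => ⟨h.1.trans (Conn.rstep w), by rw [hr.inv]; exact h.2.symm⟩,
      fun h => ⟨h.1.trans (Conn.rstep w).symm, by
        have := h.2; rw [hr.inv] at this; exact this.symm⟩⟩)
    (fun w => ⟨fun h => ⟨h.1.trans (Conn.bstep w), step w h.1 h.2⟩,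
      fun h => ⟨h.1.trans (Conn.bstep w).symm, by
        have := step (b w) h.1 h.2
        rwa [hb.inv] at this⟩⟩)
    (T.hp.symm.trans hu)
  exact (key.1 ⟨T.hp, Or.inl (Sim.refl p)⟩).2

theorem Sit1.vi (T : Sit1 R B r b X c x0 p) {u : V} (hu : Conn r b c u)
    (su : ¬ Sim R B u p) : Sim R B (b u) p := by
  have h := (T.D hu).resolve_left su
  have := T.iv (hu.trans (Conn.rstep u)) h
  rwa [T.S.hM.pr.inv] at this

theorem Sit1.vii (T : Sit1 R B r b X c x0 p) {e : V} (he : X e) (hbe : ¬ X (b e))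
    (se : Sim R B e p) : Z0 R B r b X c p e := by
  have tr := T.S.hcm.tr
  refine ⟨he, fun h => hbe (T.S.hC _ (h.trans (Conn.bstep e))), se, fun u hu g => ?_⟩
  by_cases su : Sim R B u p
  · exact (tr _ _ _ se su.symm).2 g
  · have h1 := T.S.fact_a hbe hu g
    have h2 := T.vi hu su
    exact (tr _ _ _ se (tr _ _ _ h2.symm h1.symm)).2 (T.S.hM.pb.adj e)

/-- The key exchange of type 1. -/
theorem Sit1.viii (T : Sit1 R B r b X c x0 p) {s : V} (hs : Z0 R B r b X c p s)
    (hX2 : X (b (r s))) : Z0 R B r b X c p (b (r s)) := by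
  have tr := T.S.hcm.tr
  have hr := T.S.hM.pr
  have hb := T.S.hM.pb
  obtain ⟨xs, ncs, sp, nb⟩ := hs
  have hc1 : ¬ Conn r b c (r s) := fun h => ncs (h.trans (Conn.rstep s).symm)
  have hc2 : ¬ Conn r b c (b (r s)) := fun h => hc1 (h.trans (Conn.bstep _).symm)
  have al : ∀ u, Conn r b c u → Sim R B u p → B.Adj (r s) u := by
    intro u hu su
    by_contra hnb
    by_cases g : R.Adj (r s) u
    · have h1 := T.S.hM.no2r (fun h => hc1 (hu.trans h.symm)) g
      rw [hr.inv] at h1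
      exact (tr _ _ _ (tr _ _ _ su sp.symm) ⟨h1, nb _ (hu.trans (Conn.rstep u))⟩).1 (hr.adj u)
    · exact (tr _ _ _ (tr _ _ _ sp su.symm) (Sim.symm ⟨g, hnb⟩)).1 (hr.adj s)
  have be : ∀ u, Conn r b c u → ¬ Sim R B u p → ¬ B.Adj (b (r s)) u := by
    intro u hu su g
    have h1 := T.S.hM.no2 (fun h => hc2 (hu.trans h.symm)) g
    rw [hb.inv] at h1
    exact h1 (al _ (hu.trans (Conn.bstep u)) (T.vi hu su))
  by_cases s2 : Sim R B (b (r s)) p
  · refine ⟨hX2, hc2, s2, fun u hu g => ?_⟩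
    by_cases su : Sim R B u p
    · exact (tr _ _ _ s2 su.symm).2 g
    · exact be u hu su g
  · exfalso
    -- generic exchange with `x = x0` or `x = r x0`
    have gen : ∀ x, X x → ¬ X (b x) → ¬ X (b (r x)) → Sim R B (b x) p → B.Adj x (r p) →
        False := by
      intro x hx hbx hbx1 sx g
      have C1 : Conn r b c (r p) := T.hp.trans (Conn.rstep p)
      have C2 : Conn r b c (b (r p)) := C1.trans (Conn.bstep _)
      have X1 := T.S.hC _ C1
      have X2 := T.S.hC _ C2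
      have hx1 : X (r x) := T.S.hX.r_mem hr hx
      have xs1 : X (r s) := T.S.hX.r_mem hr xs
      have g3 : B.Adj (b (r p)) (r s) := (al _ C2 (T.iv T.hp (Sim.refl p))).symm
      obtain ⟨b', hb', e1, e2, e3, e4, e5, e6, e7⟩ :=
        ex3PM hb (a := x) (c := r p) (d := b (r s))
        (fun h => T.S.nc hbx C1 (h ▸ Conn.refl _))
        (fun h => hbx (h ▸ X1))
        (fun h => hbx (by rw [← h, hb.inv]; exact xs1))
        (fun h => hbx (h ▸ hX2))
        (fun h => hc2 (h ▸ C1))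
        (fun h => hc2 (h ▸ C2))
        g
        (by
          by_contra h
          have h1 : Sim R B (b x) (b (r s)) := ⟨fun h' => T.S.hX _ _ hX2 hbx h'.symm, h⟩
          exact s2 (tr _ _ _ h1.symm sx))
        (by rw [hb.inv]; exact g3)
      rw [hb.inv] at e5 e6 e7
      have hP : Conn r b' (r p) (b (r p)) := by
        refine L0 hr hb (r p) (fun w hw w1 w2 => e7 w ?_ ?_ w1 w2 ?_ ?_)
        · rintro rfl; exact T.S.nc hbx C1 hw.symm
        · rintro rfl; exact T.S.nc hbx C1 ((Conn.bstep _).trans hw.symm)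
        · rintro rfl; exact hc2 (C1.trans hw)
        · rintro rfl; exact hc1 (C1.trans hw)
      have er : b' (r x) = b (r x) := by
        refine e7 _ (hr.ne x) ?_ ?_ ?_ ?_ ?_
        · intro h; exact hbx (h ▸ hx1)
        · intro h; exact T.S.nc hbx1 C1 (h ▸ Conn.refl _)
        · intro h; exact T.S.nc hbx1 C2 (h ▸ Conn.refl _)
        · intro h; apply hbx1; rw [h, hb.inv]; exact xs1
        · intro h; apply hbx1; rw [h]; exact hX2
      have t1 : Conn r b' x (r p) := by rw [← e1]; exact Conn.bstep x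
      have t2 : Conn r b' (b x) (b (r s)) := by rw [← e3]; exact Conn.bstep _
      have t3 : Conn r b' (b (r p)) (r s) := by rw [← e5]; exact Conn.bstep _
      have t4 : Conn r b' x (r x) := Conn.rstep x
      have t5 : Conn r b' (r p) (r x) := t1.symm.trans t4
      refine T.S.nc hbx C1 (finish T.S.hcm T.S.hM T.S.hX hb' (e := r x) (f := b (r s)) hx1
        (by rw [er]; exact hbx1) hX2 (by rw [e4]; exact hbx) ?_ (Or.inl t4) (Or.inl t5))
      intro z hz
      by_cases k1 : z = x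
      · subst k1; exact Or.inl t4
      by_cases k2 : z = b x
      · subst k2; exact Or.inr t2
      by_cases k3 : z = r p
      · subst k3; exact Or.inl t5
      by_cases k4 : z = b (r p)
      · subst k4; exact Or.inl (hP.symm.trans t5)
      by_cases k5 : z = b (r s)
      · subst k5; exact Or.inr (Conn.refl _)
      by_cases k6 : z = r s
      · subst k6; exact Or.inl (t3.symm.trans (hP.symm.trans t5))
      · exact absurd (e7 z k1 k2 k3 k4 k5 k6) hz
    rcases T.iii T.hp (Sim.refl p) with h | h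
    · exact gen x0 T.hx0 T.hb0 T.hb1 T.s0 h
    · exact gen (r x0) (T.S.hX.r_mem hr T.hx0) T.hb1 (by rw [hr.inv]; exact T.hb0) T.s1 h

/-- Type 1 is impossible. -/
theorem Sit1.false (T : Sit1 R B r b X c x0 p) : False := by
  have tr := T.S.hcm.tr
  have hr := T.S.hM.pr
  have hb := T.S.hM.pb
  have hX := T.S.hX
  set EP : Set V := {e | X e ∧ ¬ X (b e) ∧ Sim R B e p} with hEP
  set EN : Set V := {e | X e ∧ ¬ X (b e) ∧ ¬ Sim R B e p} with hEN
  set ZA : Set V := {s | Z0 R B r b X c p s ∧ X (b (r s))} with hZA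
  set ZB : Set V := {s | Z0 R B r b X c p s ∧ ¬ X (b (r s))} with hZB
  have n0 : ¬ Sim R B x0 p := fun h => (tr _ _ _ h T.s0.symm).2 (hb.adj _)
  have n1 : ¬ Sim R B (r x0) p := fun h => (tr _ _ _ h T.s1.symm).2 (hb.adj _)
  have hx1 : X (r x0) := hX.r_mem hr T.hx0
  have m0 : x0 ∈ EN := ⟨T.hx0, T.hb0, n0⟩
  have m1 : r x0 ∈ EN := ⟨hx1, T.hb1, n1⟩
  have h1 : EN.ncard ≤ EP.ncard := by
    refine Set.ncard_le_ncard_of_injOn (fun e => b (r (b e))) ?_ ?_ (Set.toFinite _)
    · rintro e ⟨xe, xbe, se⟩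
      have h1 : ¬ X (r (b e)) := fun h => xbe ((hX.r_iff hr _).2 h)
      have h2 : X (b (r (b e))) := T.hY _ h1
      have h3 : Sim R B (b e) p := (T.tight e xe xbe).resolve_left se
      have h4 : ¬ X (b (b (r (b e)))) := by rw [hb.inv]; exact h1
      refine ⟨h2, h4, (T.tight _ h2 h4).resolve_right ?_⟩
      rw [hb.inv]
      intro h
      exact (tr _ _ _ h3 h.symm).1 (hr.adj (b e))
    · intro e _ e' _ he
      exact hb.inj (hr.inj (hb.inj he))
  have h2 : ZB.ncard ≤ (EN \ {x0, r x0}).ncard := by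
    refine Set.ncard_le_ncard_of_injOn r ?_ ?_ (Set.toFinite _)
    · rintro s ⟨⟨xs, ncs, sp, nb⟩, hs⟩
      refine ⟨⟨hX.r_mem hr xs, hs, fun h => (tr _ _ _ sp h.symm).1 (hr.adj s)⟩, ?_⟩
      rintro (h | h)
      · apply n1; rw [← h, hr.inv]; exact sp
      · have h' : s = x0 := hr.inj h
        exact n0 (h' ▸ sp)
    · intro e _ e' _ he
      exact hr.inj he
  have hpair : ({x0, r x0} : Set V).ncard = 2 := Set.ncard_pair (hr.ne x0).symm
  have h3 : (EN \ {x0, r x0}).ncard = EN.ncard - 2 := by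
    rw [Set.ncard_sdiff (by
      rintro z (rfl | h)
      · exact m0
      · rw [Set.mem_singleton_iff] at h; rw [h]; exact m1) (Set.toFinite _), hpair]
  have h6 : 2 ≤ EN.ncard := by
    rw [← hpair]
    refine Set.ncard_le_ncard ?_ (Set.toFinite _)
    rintro z (rfl | h)
    · exact m0
    · rw [Set.mem_singleton_iff] at h; rw [h]; exact m1
  have hdisj : Disjoint ((fun s => b (r s)) '' ZA) EP := by
    rw [Set.disjoint_left]
    rintro z ⟨s, ⟨⟨xs, _⟩, hs⟩, rfl⟩ ⟨_, h, _⟩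
    apply h
    simp only [hb.inv]
    exact hX.r_mem hr xs
  have hdisj2 : Disjoint ZA ZB := by
    rw [Set.disjoint_left]
    rintro z ⟨_, h⟩ ⟨_, h'⟩
    exact h' h
  have hsub : ((fun s => b (r s)) '' ZA) ∪ EP ⊆ ZA ∪ ZB := by
    have hall : ∀ z, Z0 R B r b X c p z → z ∈ ZA ∪ ZB := by
      intro z hz
      by_cases h : X (b (r z))
      · exact Or.inl ⟨hz, h⟩
      · exact Or.inr ⟨hz, h⟩
    rintro z (⟨s, ⟨hs, hs'⟩, rfl⟩ | ⟨h1, h2, h3⟩)
    · exact hall _ (T.viii hs hs')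
    · exact hall _ (T.vii h1 h2 h3)
  have h4 := Set.ncard_le_ncard hsub (Set.toFinite _)
  rw [Set.ncard_union_eq hdisj (Set.toFinite _) (Set.toFinite _),
    Set.ncard_union_eq hdisj2 (Set.toFinite _) (Set.toFinite _),
    Set.ncard_image_of_injective _ (iter_inj hr hb)] at h4
  omega

end Pool.Agent.H35.AHC
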